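import Pool.Agent.Helper23.MT.Steer

set_option autoImplicit false

open scoped Classical

namespace Pool.Agent.Helper23.MT

theorem classReach (hL3 : GLIFT3) (hL7 : GLIFT7) (hT : GTRANS) (M : ℕ) (hM : 0 < M) (ρ : ℤ)
    (hρ : ∀ k : ℕ, 3 ^ (k + 1) ∣ M → U^[k] ρ % 3 ≠ 1) :
    ∃ K' : ℕ, ∀ z : ℤ, ¬ (7 : ℤ) ∣ z → (2 : ℤ) ∣ z - ρ →
      ∃ j ≤ K', ∃ z'' : ℤ, U^[j] z'' = z ∧ (M : ℤ) ∣ z'' - ρ := by
  obtain ⟨c, M1, hM1, hMc⟩ := Nat.exists_eq_pow_mul_and_not_dvd (n := M) (by omega) 3 (by norm_num)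
  have hM1pos : M1 ≠ 0 := by rintro rfl; simp at hM1
  obtain ⟨F, G0, hG0, hMF⟩ := Nat.exists_eq_pow_mul_and_not_dvd (n := M1) hM1pos 7 (by norm_num)
  have hG0pos : 0 < G0 := by
    rcases Nat.eq_zero_or_pos G0 with h | h
    · subst h; simp at hG0
    · exact h
  have h30 : ¬ 3 ∣ G0 := fun h => hM1 (hMF ▸ Dvd.dvd.mul_left h _)
  have hG3 : Nat.Coprime (4 * G0) 3 := by
    refine Nat.Coprime.mul_left (by norm_num) ?_
    exact (Nat.Prime.coprime_iff_not_dvd (by norm_num)).2 h30 |>.symm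
  have hG7 : Nat.Coprime (4 * G0) 7 := by
    refine Nat.Coprime.mul_left (by norm_num) ?_
    exact (Nat.Prime.coprime_iff_not_dvd (by norm_num)).2 hG0 |>.symm
  have hsurv : Surv c ρ := by
    intro i hi
    refine hρ i ?_
    rw [hMc]
    exact Dvd.dvd.mul_right (pow_dvd_pow 3 (by omega)) _
  obtain ⟨K, hK⟩ := steer hL7 hT (c + F) (4 * G0) (by omega) (Dvd.intro _ rfl) hG3 hG7 (U^[c] ρ)
  refine ⟨K + c, ?_⟩
  intro z hz hpar
  have hpar' : (2 : ℤ) ∣ z - U^[c] ρ := by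
    have := U_iter_parity hsurv
    omega
  obtain ⟨j, hj, y, hy, hdvd⟩ := hK z hz hpar'
  obtain ⟨z'', hz'', hdvd''⟩ := hL3 c (7 ^ F * ((4 * G0 : ℕ) : ℤ)) ρ y hsurv (by
    refine dvd_trans ?_ hdvd
    rw [pow_add, mul_assoc])
  refine ⟨j + c, by omega, z'', ?_, ?_⟩
  · rw [Function.iterate_add_apply, hz'', hy]
  · refine dvd_trans ?_ hdvd''
    rw [hMc, hMF]
    push_cast
    exact ⟨4, by ring⟩

/-- size of an ancestor -/
theorem size_back (z : ℤ) : |z| + 1 ≤ 3 * (|U z| + 1) := by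
  unfold U
  rcases abs_cases z with ⟨h1, _⟩ | ⟨h1, _⟩ <;> rw [h1]
  · split_ifs with h h'
    · rcases abs_cases (z / 3) with ⟨h2, _⟩ | ⟨h2, _⟩ <;> rw [h2] <;> omega
    · rcases abs_cases ((7 * z - 2) / 3) with ⟨h2, _⟩ | ⟨h2, _⟩ <;> rw [h2] <;> omega
    · rcases abs_cases (2 * z - 1) with ⟨h2, _⟩ | ⟨h2, _⟩ <;> rw [h2] <;> omega
  · split_ifs with h h'
    · rcases abs_cases (z / 3) with ⟨h2, _⟩ | ⟨h2, _⟩ <;> rw [h2] <;> omega
    · rcases abs_cases ((7 * z - 2) / 3) with ⟨h2, _⟩ | ⟨h2, _⟩ <;> rw [h2] <;> omega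
    · rcases abs_cases (2 * z - 1) with ⟨h2, _⟩ | ⟨h2, _⟩ <;> rw [h2] <;> omega

theorem size_back_iter (j : ℕ) (z : ℤ) : |z| + 1 ≤ 3 ^ j * (|U^[j] z| + 1) := by
  induction j generalizing z with
  | zero => simp
  | succ j ih =>
    rw [Function.iterate_succ_apply]
    have h1 := size_back z
    have h2 := ih (U z)
    calc |z| + 1 ≤ 3 * (|U z| + 1) := h1
      _ ≤ 3 * (3 ^ j * (|U^[j] (U z)| + 1)) := by linarith
      _ = 3 ^ (j + 1) * (|U^[j] (U z)| + 1) := by ring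

theorem U_one_mod {z : ℤ} (h : z % 3 = 1) : U z % 3 = 1 := by
  unfold U
  rw [if_neg (by omega), if_neg (by omega)]
  omega

theorem U_iter_one_mod {z : ℤ} (h : z % 3 = 1) (k : ℕ) : U^[k] z % 3 = 1 := by
  induction k with
  | zero => simpa using h
  | succ k ih => rw [Function.iterate_succ_apply']; exact U_one_mod ih

theorem surv_of_end {k : ℕ} {z : ℤ} (h : U^[k] z % 3 ≠ 1) : Surv k z := by
  intro i hi hcon
  apply h
  have : U^[k] z = U^[k - i] (U^[i] z) := by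
    rw [← Function.iterate_add_apply]; congr 1; omega
  rw [this]
  exact U_iter_one_mod hcon _

/-- congruent starting points have congruent images -/
theorem U_cong (k : ℕ) : ∀ (z u : ℤ), Surv k z → ∃ a : ℕ, U^[k] (z + 3 ^ k * u) = U^[k] z + 7 ^ a * u := by
  induction k with
  | zero => intro z u _; exact ⟨0, by simp⟩
  | succ k ih =>
    intro z u hz
    have hz0 : z % 3 ≠ 1 := by simpa using hz 0 (by omega)
    have hz1 : Surv k (U z) := by
      intro i hi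
      have := hz (i + 1) (by omega)
      rwa [Function.iterate_succ_apply] at this
    have hp : (3 : ℤ) ^ (k + 1) * u = 3 * (3 ^ k * u) := by ring
    rw [Function.iterate_succ_apply, Function.iterate_succ_apply]
    rcases (by omega : z % 3 = 0 ∨ z % 3 = 2) with h | h
    · obtain ⟨a, ha⟩ := ih (U z) u hz1
      refine ⟨a, ?_⟩
      have : U (z + 3 ^ (k + 1) * u) = U z + 3 ^ k * u := by
        have h1 := U_zero_mod h
        have h2 := U_zero_mod (z := z + 3 ^ (k + 1) * u) (by omega)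
        omega
      rw [this, ha]
    · obtain ⟨a, ha⟩ := ih (U z) (7 * u) hz1
      refine ⟨a + 1, ?_⟩
      have : U (z + 3 ^ (k + 1) * u) = U z + 3 ^ k * (7 * u) := by
        have h1 := U_two_mod h
        have h2 := U_two_mod (z := z + 3 ^ (k + 1) * u) (by omega)
        have h3 : (3 : ℤ) ^ k * (7 * u) = 7 * (3 ^ k * u) := by ring
        omega
      rw [this, ha]; ring

/-- a nonzero survivor reaches an integer not divisible by 7 -/
theorem exists_unit {z : ℤ} (hz : ∀ k : ℕ, U^[k] z % 3 ≠ 1) (hz0 : z ≠ 0) :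
    ∃ k : ℕ, ¬ (7 : ℤ) ∣ U^[k] z := by
  by_contra hcon
  push Not at hcon
  have h0 : ∀ k : ℕ, U^[k] z % 3 = 0 := by
    intro k
    rcases (by have := hz k; omega : U^[k] z % 3 = 0 ∨ U^[k] z % 3 = 2) with h | h
    · exact h
    · exfalso
      have h1 := U_two_mod h
      have h2 := hcon (k + 1)
      have h3 := hcon k
      rw [Function.iterate_succ_apply'] at h2
      omega
  have h1 : ∀ k : ℕ, z = 3 ^ k * U^[k] z := by
    intro k
    induction k with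
    | zero => simp
    | succ k ih =>
      have := U_zero_mod (h0 k)
      rw [Function.iterate_succ_apply']
      calc z = 3 ^ k * U^[k] z := ih
        _ = 3 ^ k * (3 * U (U^[k] z)) := by rw [this]
        _ = 3 ^ (k + 1) * U (U^[k] z) := by ring
  -- 3^k divides z for all k
  have h2 : ∀ k : ℕ, (3 : ℤ) ^ k ∣ z := fun k => ⟨_, h1 k⟩
  have h3 := h2 (z.natAbs)
  have h4 : (3 : ℤ) ^ z.natAbs ≤ |z| := Int.le_of_dvd (abs_pos.2 hz0) ((dvd_abs _ _).2 h3)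
  have h5 : (z.natAbs : ℤ) < 3 ^ z.natAbs := by
    exact_mod_cast Nat.lt_pow_self (by norm_num : 1 < 3)
  have h6 : (z.natAbs : ℤ) = |z| := Int.natCast_natAbs z
  omega

/-- first exponent of a block for z not divisible by 7 -/
theorem exists_block {z : ℤ} (hz : ¬ (7 : ℤ) ∣ z) :
    ∃ l0 : ℕ, l0 ≤ 5 ∧ (7 : ℤ) ∣ 3 ^ (l0 + 1) * z + 2 := by
  have hcases : z % 7 = 1 ∨ z % 7 = 2 ∨ z % 7 = 3 ∨ z % 7 = 4 ∨ z % 7 = 5 ∨ z % 7 = 6 := by omega
  rcases hcases with h | h | h | h | h | h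
  · exact ⟨4, by norm_num, by norm_num; omega⟩
  · exact ⟨2, by norm_num, by norm_num; omega⟩
  · exact ⟨3, by norm_num, by norm_num; omega⟩
  · exact ⟨0, by norm_num, by norm_num; omega⟩
  · exact ⟨5, by norm_num, by norm_num; omega⟩
  · exact ⟨1, by norm_num, by norm_num; omega⟩

/-- if U^[a] y = z = U^[b] y' with a block structure and both y, y' periodic, then a = b -/
theorem periodic_block {z y y' : ℤ} {l d : ℕ} (hd : 1 ≤ d)
    (h : 7 * y = 3 ^ (l + 1) * z + 2) (h' : 7 * y' = 3 ^ (l + d + 1) * z + 2)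
    (hp : ∃ n ≥ 1, U^[n] y = y) (hp' : ∃ n ≥ 1, U^[n] y' = y') : False := by
  obtain ⟨n, hn, hny⟩ := hp
  obtain ⟨n', hn', hny'⟩ := hp'
  -- common period N, large
  set N := n * n' * (l + d + 1) with hN
  have hnn : 1 ≤ n * n' := Nat.one_le_iff_ne_zero.2 (by positivity)
  have hNge : l + d + 1 ≤ N := by rw [hN]; nlinarith
  have hNy : U^[N] y = y := by
    have : N = n * (n' * (l + d + 1)) := by rw [hN]; ring
    rw [this, Function.iterate_mul]
    exact Function.iterate_fixed hny _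
  have hNy' : U^[N] y' = y' := by
    have : N = n' * (n * (l + d + 1)) := by rw [hN]; ring
    rw [this, Function.iterate_mul]
    exact Function.iterate_fixed hny' _
  have e1 : U^[l + 1] y = z := U_iter_block h
  have e2 : U^[l + d + 1] y' = z := U_iter_block h'
  have e3 : U^[N - (l + 1)] z = y := by
    rw [← e1, ← Function.iterate_add_apply]
    rw [show N - (l + 1) + (l + 1) = N by omega, hNy]
  have e4 : U^[N - (l + 1)] z = U^[d] y' := by
    rw [← e2, ← Function.iterate_add_apply]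
    rw [show N - (l + 1) + (l + d + 1) = d + N by omega, Function.iterate_add_apply, hNy']
  have e5 : U^[d] y' = 3 ^ (l + 1) * z := by
    obtain ⟨d', rfl⟩ : ∃ d', d = d' + 1 := ⟨d - 1, by omega⟩
    rw [Function.iterate_succ_apply, U_of_seven (y := 3 ^ (l + (d' + 1)) * z) (by rw [h']; ring)]
    have : (3 : ℤ) ^ (l + (d' + 1)) * z = 3 ^ d' * (3 ^ (l + 1) * z) := by
      rw [← mul_assoc, ← pow_add]; congr 2; ring
    rw [this, U_iter_pow]
  have e6 : y = 3 ^ (l + 1) * z := by rw [← e3, e4, e5]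
  have e7 : (3 : ℤ) ^ (l + 1) * z = 3 * (3 ^ l * z) := by ring
  omega

/-- above every z not divisible by 7 there is a non-periodic integer not divisible by 7 -/
theorem exists_nonperiodic {z : ℤ} (hz : ¬ (7 : ℤ) ∣ z) :
    ∃ y : ℤ, ¬ (7 : ℤ) ∣ y ∧ (∀ k : ℕ, 1 ≤ k → U^[k] y ≠ y) ∧ ∃ k : ℕ, U^[k] y = z := by
  obtain ⟨l0, hl0, hdv⟩ := exists_block hz
  -- three children
  have key : ∀ q : ℕ, ∃ y : ℤ, 7 * y = 3 ^ (l0 + 6 * q + 1) * z + 2 := by
    intro q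
    have h1 : (7 : ℤ) ∣ 3 ^ (6 * q) - 1 := by
      rw [pow_mul]
      have := sub_dvd_pow_sub_pow ((3 : ℤ) ^ 6) 1 q
      rw [one_pow] at this
      exact dvd_trans (by norm_num) this
    have h2 : (7 : ℤ) ∣ 3 ^ (l0 + 6 * q + 1) * z + 2 := by
      have e1 : (3 : ℤ) ^ (l0 + 6 * q + 1) * z + 2
          = 3 ^ (l0 + 1) * z * (3 ^ (6 * q) - 1) + (3 ^ (l0 + 1) * z + 2) := by
        rw [show l0 + 6 * q + 1 = l0 + 1 + 6 * q by ring, pow_add]; ring
      rw [e1]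
      exact dvd_add (Dvd.dvd.mul_left h1 _) hdv
    obtain ⟨y, hy⟩ := h2
    exact ⟨y, hy.symm⟩
  obtain ⟨y0, h0⟩ := key 0
  obtain ⟨y1, h1⟩ := key 1
  obtain ⟨y2, h2⟩ := key 2
  have hz3 : ¬ (7 : ℤ) ∣ 3 ^ (l0 + 1) * z := by
    intro h
    rcases (Int.prime_iff_natAbs_prime.2 (by norm_num) : Prime (7 : ℤ)).dvd_or_dvd h with h | h
    · have := (Int.prime_iff_natAbs_prime.2 (by norm_num) : Prime (7 : ℤ)).dvd_of_dvd_pow h
      norm_num at this
    · exact hz h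
  set w := (3 : ℤ) ^ (l0 + 1) * z with hw
  have g0 : 7 * y0 = w + 2 := by rw [h0, hw]
  have g1 : 7 * y1 = 729 * w + 2 := by rw [h1, hw]; ring
  have g2 : 7 * y2 = 531441 * w + 2 := by rw [h2, hw]; ring
  have d01 : ¬ ((7 : ℤ) ∣ y0 ∧ (7 : ℤ) ∣ y1) := by rintro ⟨a, b⟩; omega
  have d02 : ¬ ((7 : ℤ) ∣ y0 ∧ (7 : ℤ) ∣ y2) := by rintro ⟨a, b⟩; omega
  have d12 : ¬ ((7 : ℤ) ∣ y1 ∧ (7 : ℤ) ∣ y2) := by rintro ⟨a, b⟩; omega
  have p01 : ¬ ((∃ n ≥ 1, U^[n] y0 = y0) ∧ (∃ n ≥ 1, U^[n] y1 = y1)) := by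
    rintro ⟨a, b⟩
    exact periodic_block (l := l0) (d := 6) (by norm_num) (by rw [h0]) (by rw [h1]) a b
  have p02 : ¬ ((∃ n ≥ 1, U^[n] y0 = y0) ∧ (∃ n ≥ 1, U^[n] y2 = y2)) := by
    rintro ⟨a, b⟩
    exact periodic_block (l := l0) (d := 12) (by norm_num) (by rw [h0]) (by rw [h2]) a b
  have p12 : ¬ ((∃ n ≥ 1, U^[n] y1 = y1) ∧ (∃ n ≥ 1, U^[n] y2 = y2)) := by
    rintro ⟨a, b⟩
    exact periodic_block (l := l0 + 6) (d := 6) (by norm_num) (by rw [h1]) (by rw [h2]) a b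
  have u0 : U^[l0 + 6 * 0 + 1] y0 = z := U_iter_block h0
  have u1 : U^[l0 + 6 * 1 + 1] y1 = z := U_iter_block h1
  have u2 : U^[l0 + 6 * 2 + 1] y2 = z := U_iter_block h2
  by_cases a0 : (7 : ℤ) ∣ y0 ∨ (∃ n ≥ 1, U^[n] y0 = y0)
  · by_cases a1 : (7 : ℤ) ∣ y1 ∨ (∃ n ≥ 1, U^[n] y1 = y1)
    · -- y2
      refine ⟨y2, ?_, ?_, ⟨_, u2⟩⟩
      · intro h
        rcases a0 with a0 | a0
        · exact d02 ⟨a0, h⟩
        · rcases a1 with a1 | a1
          · exact d12 ⟨a1, h⟩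
          · exact p01 ⟨a0, a1⟩
      · intro k hk h
        rcases a0 with a0 | a0
        · rcases a1 with a1 | a1
          · exact d01 ⟨a0, a1⟩
          · exact p12 ⟨a1, ⟨k, hk, h⟩⟩
        · exact p02 ⟨a0, ⟨k, hk, h⟩⟩
    · push Not at a1
      exact ⟨y1, a1.1, fun k hk => a1.2 k hk, ⟨_, u1⟩⟩
  · push Not at a0
    exact ⟨y0, a0.1, fun k hk => a0.2 k hk, ⟨_, u0⟩⟩

/-- the merging theorem in z-coordinates -/
theorem merge_count (hL3 : GLIFT3) (hL7 : GLIFT7) (hT : GTRANS) (hTree : GTREE)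
    (z0 : ℤ) (hz0 : ∀ k : ℕ, U^[k] z0 % 3 ≠ 1) (hne : z0 ≠ 0) (M : ℕ) (hM : 0 < M) (ρ : ℤ)
    (hρ : ∀ k : ℕ, 3 ^ (k + 1) ∣ M → U^[k] ρ % 3 ≠ 1) (hpar : (2 : ℤ) ∣ z0 - ρ) :
    ∃ c : ℝ, 0 < c ∧ ∃ X0 : ℕ, ∀ X : ℕ, X0 ≤ X →
      c * (X : ℝ) ^ ((1 : ℝ) / 13) ≤
        (((Finset.Icc (-(X : ℤ)) X).filter
          (fun x => (M : ℤ) ∣ (x + 1) - ρ ∧ ∃ j k : ℕ, U^[j] (x + 1) = U^[k] z0)).card : ℝ) := by
  obtain ⟨k0, hk0⟩ := exists_unit hz0 hne
  obtain ⟨z1, hz1, hnp, k1, hk1⟩ := exists_nonperiodic hk0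
  obtain ⟨c, hc, hcX⟩ := hTree z1 hz1 hnp
  obtain ⟨K, hK⟩ := classReach hL3 hL7 hT M hM ρ hρ
  -- z1 is a survivor
  have hz1surv : z1 % 3 ≠ 1 := by
    intro h
    have := U_iter_one_mod h k1
    rw [hk1] at this
    exact hz0 k0 this
  have hz1par : (2 : ℤ) ∣ z1 - ρ := by
    have h1 : Surv k1 z1 := surv_of_end (by rw [hk1]; exact hz0 k0)
    have h2 : Surv k0 z0 := fun i _ => hz0 i
    have h3 := U_iter_parity h1
    have h4 := U_iter_parity h2
    rw [hk1] at h3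
    omega
  -- choice of the class element
  have hch : ∀ z' : ℤ, ∃ w : ℤ, (¬ (7 : ℤ) ∣ z' ∧ ∃ k : ℕ, U^[k] z' = z1) →
      ∃ j ≤ K, U^[j] w = z' ∧ (M : ℤ) ∣ w - ρ := by
    intro z'
    by_cases h : ¬ (7 : ℤ) ∣ z' ∧ ∃ k : ℕ, U^[k] z' = z1
    · obtain ⟨h7, k, hk⟩ := h
      have hp : (2 : ℤ) ∣ z' - ρ := by
        have h1 : Surv k z' := surv_of_end (by rw [hk]; exact hz1surv)
        have h2 := U_iter_parity h1
        rw [hk] at h2
        omega
      obtain ⟨j, hj, w, hw, hd⟩ := hK z' h7 hp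
      exact ⟨w, fun _ => ⟨j, hj, hw, hd⟩⟩
    · exact ⟨0, fun h' => absurd h' h⟩
  choose g hg using hch
  set C3 : ℕ := 3 ^ K with hC3
  have hC3pos : 0 < C3 := by positivity
  refine ⟨c / ((K + 1) * (2 * (C3 : ℝ)) ^ ((1 : ℝ) / 13)), by positivity,
    4 * C3 + C3 * (z1.natAbs + 2), ?_⟩
  intro X hX
  set X1 : ℕ := X / C3 - 1 with hX1
  have hdiv : z1.natAbs + 2 ≤ X / C3 := by
    rw [Nat.le_div_iff_mul_le hC3pos, mul_comm]
    exact le_trans (Nat.le_add_left _ _) hX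
  have hdiv4 : 4 ≤ X / C3 := by
    rw [Nat.le_div_iff_mul_le hC3pos]
    exact le_trans (Nat.le_add_right _ _) hX
  have hX1z : |z1| ≤ (X1 : ℤ) := by
    have : (z1.natAbs : ℤ) = |z1| := Int.natCast_natAbs z1
    omega
  have hmain := hcX X1 hX1z
  set A := (Finset.Icc (-(X1 : ℤ)) X1).filter
          (fun z' => ¬ (7 : ℤ) ∣ z' ∧ ∃ k : ℕ, U^[k] z' = z1) with hA
  set B := (Finset.Icc (-(X : ℤ)) X).filter
          (fun x => (M : ℤ) ∣ (x + 1) - ρ ∧ ∃ j k : ℕ, U^[j] (x + 1) = U^[k] z0) with hB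
  have hmap : ∀ z' ∈ A, g z' - 1 ∈ B := by
    intro z' hz'
    rw [hA, Finset.mem_filter, Finset.mem_Icc] at hz'
    obtain ⟨⟨hlo, hhi⟩, h7, k, hk⟩ := hz'
    obtain ⟨j, hj, hw, hd⟩ := hg z' ⟨h7, k, hk⟩
    have hsize := size_back_iter j (g z')
    rw [hw] at hsize
    have habs : |z'| ≤ (X1 : ℤ) := abs_le.2 ⟨hlo, hhi⟩
    have hpow : (3 : ℤ) ^ j ≤ (C3 : ℤ) := by
      rw [hC3]; push_cast
      exact pow_le_pow_right₀ (by norm_num) hj
    have hbound : |g z'| + 1 ≤ (X : ℤ) := by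
      have h1 : |g z'| + 1 ≤ (C3 : ℤ) * (X1 + 1) := by
        calc |g z'| + 1 ≤ 3 ^ j * (|z'| + 1) := hsize
          _ ≤ (C3 : ℤ) * (X1 + 1) := by
            apply mul_le_mul hpow (by omega) (by positivity) (by positivity)
      have h2 : C3 * (X1 + 1) ≤ X := by
        rw [hX1, show X / C3 - 1 + 1 = X / C3 by omega]
        exact Nat.mul_div_le X C3
      have h3 : ((C3 * (X1 + 1) : ℕ) : ℤ) ≤ (X : ℤ) := by exact_mod_cast h2
      push_cast at h3
      linarith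
    rw [hB, Finset.mem_filter, Finset.mem_Icc]
    have h5 := abs_le.1 (by linarith : |g z'| ≤ (X : ℤ) - 1)
    refine ⟨⟨by linarith, by linarith⟩, ?_, ?_⟩
    · rw [sub_add_cancel]; exact hd
    · refine ⟨k1 + k + j, k0, ?_⟩
      rw [sub_add_cancel, Function.iterate_add_apply, hw, Function.iterate_add_apply, hk, hk1]
  have hcard : A.card ≤ (K + 1) * B.card := by
    have hsub : A.image (fun z' => g z' - 1) ⊆ B := by
      intro b hb
      rw [Finset.mem_image] at hb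
      obtain ⟨z', hz', rfl⟩ := hb
      exact hmap z' hz'
    have h1 : A.card ≤ (K + 1) * (A.image (fun z' => g z' - 1)).card := by
      apply Finset.card_le_mul_card_image
      intro b _
      have hsub2 : A.filter (fun a => g a - 1 = b) ⊆
          (Finset.range (K + 1)).image (fun j => U^[j] (b + 1)) := by
        intro a ha
        rw [Finset.mem_filter] at ha
        obtain ⟨haA, hab⟩ := ha
        rw [hA, Finset.mem_filter] at haA
        obtain ⟨j, hj, hw, _⟩ := hg a haA.2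
        rw [Finset.mem_image]
        refine ⟨j, Finset.mem_range.2 (by omega), ?_⟩
        rw [← hab, sub_add_cancel, hw]
      calc (A.filter (fun a => g a - 1 = b)).card
          ≤ ((Finset.range (K + 1)).image (fun j => U^[j] (b + 1))).card :=
            Finset.card_le_card hsub2
        _ ≤ (Finset.range (K + 1)).card := Finset.card_image_le
        _ = K + 1 := Finset.card_range _
    exact le_trans h1 (Nat.mul_le_mul_left _ (Finset.card_le_card hsub))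
  have hcard' : (A.card : ℝ) ≤ (K + 1) * (B.card : ℝ) := by exact_mod_cast hcard
  -- size comparison X ≤ 2 C3 X1
  have hXle : (X : ℝ) ≤ 2 * C3 * X1 := by
    have h1 : X < C3 * (X / C3 + 1) := by
      have := Nat.lt_mul_div_succ X hC3pos
      simpa using this
    have h2 : X / C3 + 1 ≤ 2 * X1 := by omega
    have h3 : X ≤ C3 * (2 * X1) := le_trans h1.le (Nat.mul_le_mul_left _ h2)
    have h4 : (X : ℝ) ≤ (C3 : ℝ) * (2 * X1) := by exact_mod_cast h3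
    linarith
  have hpow : (X : ℝ) ^ ((1 : ℝ) / 13) ≤ (2 * (C3 : ℝ)) ^ ((1 : ℝ) / 13) * (X1 : ℝ) ^ ((1 : ℝ) / 13) := by
    rw [← Real.mul_rpow (by positivity) (by positivity)]
    exact Real.rpow_le_rpow (by positivity) hXle (by norm_num)
  have hposd : (0 : ℝ) < (K + 1) * (2 * (C3 : ℝ)) ^ ((1 : ℝ) / 13) := by positivity
  rw [div_mul_eq_mul_div, div_le_iff₀ hposd]
  calc c * (X : ℝ) ^ ((1 : ℝ) / 13)
      ≤ c * ((2 * (C3 : ℝ)) ^ ((1 : ℝ) / 13) * (X1 : ℝ) ^ ((1 : ℝ) / 13)) :=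
        mul_le_mul_of_nonneg_left hpow hc.le
    _ = (2 * (C3 : ℝ)) ^ ((1 : ℝ) / 13) * (c * (X1 : ℝ) ^ ((1 : ℝ) / 13)) := by ring
    _ ≤ (2 * (C3 : ℝ)) ^ ((1 : ℝ) / 13) * ((K + 1) * (B.card : ℝ)) := by
        apply mul_le_mul_of_nonneg_left (le_trans hmain hcard') (by positivity)
    _ = (B.card : ℝ) * ((K + 1) * (2 * (C3 : ℝ)) ^ ((1 : ℝ) / 13)) := by ring

end Pool.Agent.Helper23.MT
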