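import Pool.Agent.Helper23.MT.Final

set_option autoImplicit false

open scoped Classical

namespace Pool.Agent.Helper23.MT

theorem survivor_count (h : GMAIN) :
    ∃ C : ℝ, 0 < C ∧ ∀ X : ℕ, 1 ≤ X →
      (Set.ncard {x : ℤ | |x| ≤ (X : ℤ) ∧ ∀ k : ℕ, ¬ (3 : ℤ) ∣ T^[k] x} : ℝ) ≤
        C * (X : ℝ) ^ ((629 : ℝ) / 1000) := by
  obtain ⟨C, hC, hX⟩ := h
  refine ⟨C * 2 ^ ((629 : ℝ) / 1000), by positivity, fun X hX1 => ?_⟩
  have h1 := hX (X + 1) (by omega)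
  have hle : Set.ncard {x : ℤ | |x| ≤ (X : ℤ) ∧ ∀ k : ℕ, ¬ (3 : ℤ) ∣ T^[k] x} ≤
      ((Finset.Icc (-((X + 1 : ℕ) : ℤ)) ((X + 1 : ℕ) : ℤ)).filter
        (fun z => ∀ k : ℕ, U^[k] z % 3 ≠ 1)).card := by
    rw [← Set.ncard_coe_finset]
    refine Set.ncard_le_ncard_of_injOn (fun x => x + 1) ?_ ?_ (Finset.finite_toSet _)
    · intro x hx
      obtain ⟨ha, hb⟩ := hx
      rw [Finset.mem_coe, Finset.mem_filter, Finset.mem_Icc]
      have := abs_le.1 ha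
      refine ⟨⟨by push_cast; omega, by push_cast; omega⟩, fun k => (T_iter_three k x).1 (hb k)⟩
    · intro a _ b _ hab
      simpa using hab
  have h2 : (Set.ncard {x : ℤ | |x| ≤ (X : ℤ) ∧ ∀ k : ℕ, ¬ (3 : ℤ) ∣ T^[k] x} : ℝ) ≤
      C * (((X + 1 : ℕ) : ℝ)) ^ ((629 : ℝ) / 1000) := le_trans (by exact_mod_cast hle) h1
  refine le_trans h2 ?_
  rw [mul_assoc]
  apply mul_le_mul_of_nonneg_left _ hC.le
  rw [← Real.mul_rpow (by norm_num) (by positivity)]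
  apply Real.rpow_le_rpow (by positivity) _ (by norm_num)
  push_cast
  have : (1 : ℝ) ≤ X := by exact_mod_cast hX1
  linarith

end Pool.Agent.Helper23.MT
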