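import Mathlib

set_option autoImplicit false

namespace Pool.Agent.Helper23.MT

/-- the map of the problem -/
def T (x : ℤ) : ℤ :=
  if x % 3 = 0 then 2 * x else if x % 3 = 1 then (7 * x + 2) / 3 else (x - 2) / 3

/-- the map of the problem in the coordinate z = x + 1 -/
def U (z : ℤ) : ℤ :=
  if z % 3 = 0 then z / 3 else if z % 3 = 2 then (7 * z - 2) / 3 else 2 * z - 1

/-- the path of z avoids the class 1 mod 3 during the first k steps -/
def Surv (k : ℕ) (z : ℤ) : Prop := ∀ i < k, U^[i] z % 3 ≠ 1

theorem T_eq_U (x : ℤ) : T x = U (x + 1) - 1 := by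
  unfold T U
  rcases (by omega : x % 3 = 0 ∨ x % 3 = 1 ∨ x % 3 = 2) with h | h | h
  · rw [if_pos h, if_neg (by omega), if_neg (by omega)]; ring
  · rw [if_neg (by omega), if_pos h, if_neg (by omega), if_pos (by omega)]
    omega
  · rw [if_neg (by omega), if_neg (by omega), if_pos (by omega)]
    omega

theorem T_iter (k : ℕ) (x : ℤ) : T^[k] x = U^[k] (x + 1) - 1 := by
  induction k generalizing x with
  | zero => simp
  | succ k ih =>
    rw [Function.iterate_succ_apply, Function.iterate_succ_apply, ih, T_eq_U]
    congr 2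
    ring_nf

theorem U_three_mul (y : ℤ) : U (3 * y) = y := by
  unfold U
  rw [if_pos (by omega)]
  omega

theorem U_of_seven {y y' : ℤ} (h : 7 * y' = 3 * y + 2) : U y' = y := by
  unfold U
  rw [if_neg (by omega), if_pos (by omega)]
  omega

theorem U_iter_pow (l : ℕ) (y : ℤ) : U^[l] (3 ^ l * y) = y := by
  induction l with
  | zero => simp
  | succ l ih =>
    rw [Function.iterate_succ_apply, show (3 : ℤ) ^ (l + 1) * y = 3 * (3 ^ l * y) by ring,
      U_three_mul, ih]

/-- one block backward: l times the inverse letter 2, then the inverse letter 1 -/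
theorem U_iter_block {l : ℕ} {y y' : ℤ} (h : 7 * y' = 3 ^ (l + 1) * y + 2) :
    U^[l + 1] y' = y := by
  rw [Function.iterate_succ_apply, U_of_seven (y := 3 ^ l * y) (by rw [h]; ring), U_iter_pow]

theorem U_zero_mod {z : ℤ} (h : z % 3 = 0) : 3 * U z = z := by
  unfold U
  rw [if_pos h]
  omega

theorem U_two_mod {z : ℤ} (h : z % 3 = 2) : 3 * U z = 7 * z - 2 := by
  unfold U
  rw [if_neg (by omega), if_pos h]
  omega

/-- parity is preserved along surviving letters -/
theorem U_parity {z : ℤ} (h : z % 3 ≠ 1) : (2 : ℤ) ∣ U z - z := by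
  rcases (by omega : z % 3 = 0 ∨ z % 3 = 2) with h0 | h0
  · have := U_zero_mod h0; omega
  · have := U_two_mod h0; omega

theorem U_iter_parity {k : ℕ} {z : ℤ} (h : Surv k z) : (2 : ℤ) ∣ U^[k] z - z := by
  induction k with
  | zero => simp
  | succ k ih =>
    rw [Function.iterate_succ_apply']
    have h1 := ih (fun i hi => h i (by omega))
    have h2 := U_parity (h k (by omega))
    omega

/-- state of the backward run automaton: length mod 6 of the current run of letters 2 -/
def cst : ℕ → ℤ → ℕ
  | 0, _ => 0
  | k + 1, z => if z % 3 = 2 then 0 else if cst k (U z) = 5 then 0 else cst k (U z) + 1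

/-- number of letters 1 among the first k letters of z -/
def ones : ℕ → ℤ → ℕ
  | 0, _ => 0
  | k + 1, z => if z % 3 = 2 then ones k (U z) + 1 else ones k (U z)

/-- number of completed blocks of six letters 2 inside the runs of the first k letters of z -/
def wraps : ℕ → ℤ → ℕ
  | 0, _ => 0
  | k + 1, z => if z % 3 = 2 then wraps k (U z)
      else if cst k (U z) = 5 then wraps k (U z) + 1 else wraps k (U z)

end Pool.Agent.Helper23.MT
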