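import Pool.Agent.Helper23.MT.Class

set_option autoImplicit false

open scoped Classical

namespace Pool.Agent.Helper23.MT

theorem dvd_three_iff (x : ℤ) : ¬ (3 : ℤ) ∣ x ↔ (x + 1) % 3 ≠ 1 := by omega

theorem T_iter_three (k : ℕ) (x : ℤ) : ¬ (3 : ℤ) ∣ T^[k] x ↔ U^[k] (x + 1) % 3 ≠ 1 := by
  rw [T_iter, dvd_three_iff, sub_add_cancel]

/-- the survival condition only depends on the class -/
theorem cond_transfer {M : ℕ} {s x : ℤ} (hx : (M : ℤ) ∣ x - s)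
    (hs : ∀ k : ℕ, 3 ^ (k + 1) ∣ M → U^[k] s % 3 ≠ 1) :
    ∀ k : ℕ, 3 ^ (k + 1) ∣ M → U^[k] x % 3 ≠ 1 := by
  intro k hk
  have hsurv : Surv k s := by
    intro i hi
    exact hs i (dvd_trans (pow_dvd_pow 3 (by omega)) hk)
  have h1 : (3 : ℤ) ^ (k + 1) ∣ x - s := dvd_trans (by exact_mod_cast hk) hx
  obtain ⟨t, ht⟩ := h1
  obtain ⟨a, ha⟩ := U_cong k s (3 * t) hsurv
  have h2 : s + 3 ^ k * (3 * t) = x := by
    have : (3 : ℤ) ^ k * (3 * t) = 3 ^ (k + 1) * t := by ring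
    rw [this]; linarith
  rw [h2] at ha
  have h3 := hs k hk
  rw [ha]
  have h4 : (7 : ℤ) ^ a * (3 * t) = 3 * (7 ^ a * t) := by ring
  omega

theorem every_class (hL3 : GLIFT3) (hL7 : GLIFT7) (hT : GTRANS) (hTree : GTREE)
    (x₀ : ℤ) (hx₀ : ∀ k : ℕ, ¬ (3 : ℤ) ∣ T^[k] x₀) (hne : x₀ ≠ -1) (M : ℕ) (hM : 0 < M) (s : ℤ) :
    ((∃ x : ℤ, (M : ℤ) ∣ x - s ∧ ∃ j k : ℕ, T^[j] x = T^[k] x₀) ↔
      ((2 ∣ M → (2 : ℤ) ∣ s - x₀) ∧ ∀ k : ℕ, 3 ^ (k + 1) ∣ M → ¬ (3 : ℤ) ∣ T^[k] s)) ∧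
    ((∃ x : ℤ, (M : ℤ) ∣ x - s ∧ ∃ j k : ℕ, T^[j] x = T^[k] x₀) →
      ∃ c : ℝ, 0 < c ∧ ∃ X₀ : ℕ, ∀ X : ℕ, X₀ ≤ X →
        c * (X : ℝ) ^ ((1 : ℝ) / 13) ≤
          (Set.ncard {x : ℤ | |x| ≤ (X : ℤ) ∧ (M : ℤ) ∣ x - s ∧
            ∃ j k : ℕ, T^[j] x = T^[k] x₀} : ℝ)) := by
  have hx₀' : ∀ k : ℕ, U^[k] (x₀ + 1) % 3 ≠ 1 := fun k => (T_iter_three k x₀).1 (hx₀ k)
  have hfwd : (∃ x : ℤ, (M : ℤ) ∣ x - s ∧ ∃ j k : ℕ, T^[j] x = T^[k] x₀) →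
      ((2 ∣ M → (2 : ℤ) ∣ s - x₀) ∧ ∀ k : ℕ, 3 ^ (k + 1) ∣ M → ¬ (3 : ℤ) ∣ T^[k] s) := by
    rintro ⟨x, hxs, j, k, hjk⟩
    have hjk' : U^[j] (x + 1) = U^[k] (x₀ + 1) := by
      rw [T_iter, T_iter] at hjk
      linarith
    have hsx : Surv j (x + 1) := surv_of_end (by rw [hjk']; exact hx₀' k)
    have hxall : ∀ i : ℕ, U^[i] (x + 1) % 3 ≠ 1 := by
      intro i hcon
      have h1 := U_iter_one_mod hcon j
      rw [← Function.iterate_add_apply, add_comm, Function.iterate_add_apply, hjk',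
        ← Function.iterate_add_apply] at h1
      exact hx₀' _ h1
    constructor
    · intro h2
      have h3 : (2 : ℤ) ∣ x - s := dvd_trans (by exact_mod_cast h2) hxs
      have h4 := U_iter_parity hsx
      have h5 := U_iter_parity (k := k) (z := x₀ + 1) (fun i _ => hx₀' i)
      rw [hjk'] at h4
      omega
    · intro i hi
      rw [T_iter_three]
      refine cond_transfer (M := M) (s := x + 1) (x := s + 1) ?_ (fun k _ => hxall k) i hi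
      have e1 : s + 1 - (x + 1) = -(x - s) := by ring
      rw [e1]
      exact (dvd_neg (a := (M : ℤ))).2 hxs
  have hcount : ((2 ∣ M → (2 : ℤ) ∣ s - x₀) ∧ ∀ k : ℕ, 3 ^ (k + 1) ∣ M → ¬ (3 : ℤ) ∣ T^[k] s) →
      ∃ c : ℝ, 0 < c ∧ ∃ X₀ : ℕ, ∀ X : ℕ, X₀ ≤ X →
        c * (X : ℝ) ^ ((1 : ℝ) / 13) ≤
          (Set.ncard {x : ℤ | |x| ≤ (X : ℤ) ∧ (M : ℤ) ∣ x - s ∧
            ∃ j k : ℕ, T^[j] x = T^[k] x₀} : ℝ) := by
    rintro ⟨hp, hs⟩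
    have hs' : ∀ k : ℕ, 3 ^ (k + 1) ∣ M → U^[k] (s + 1) % 3 ≠ 1 := fun k hk =>
      (T_iter_three k s).1 (hs k hk)
    -- representative with the right parity
    obtain ⟨s', hs's, hpar⟩ : ∃ s' : ℤ, (M : ℤ) ∣ s' - s ∧ (2 : ℤ) ∣ (x₀ + 1) - (s' + 1) := by
      by_cases h2 : 2 ∣ M
      · refine ⟨s, by simp, ?_⟩
        have := hp h2
        omega
      · by_cases h3 : (2 : ℤ) ∣ x₀ - s
        · exact ⟨s, by simp, by omega⟩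
        · refine ⟨s + M, by simp, ?_⟩
          have : ¬ (2 : ℤ) ∣ (M : ℤ) := by exact_mod_cast h2
          omega
    have hs'' : ∀ k : ℕ, 3 ^ (k + 1) ∣ M → U^[k] (s' + 1) % 3 ≠ 1 :=
      cond_transfer (M := M) (s := s + 1) (x := s' + 1) (by
        convert hs's using 1; ring) hs'
    obtain ⟨c, hc, X0, hX0⟩ := merge_count hL3 hL7 hT hTree (x₀ + 1) hx₀' (by omega) M hM (s' + 1)
      hs'' hpar
    refine ⟨c, hc, X0, fun X hX => ?_⟩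
    refine le_trans (hX0 X hX) ?_
    have hfin : ({x : ℤ | |x| ≤ (X : ℤ) ∧ (M : ℤ) ∣ x - s ∧
            ∃ j k : ℕ, T^[j] x = T^[k] x₀}).Finite := by
      apply Set.Finite.subset (Set.finite_Icc (-(X : ℤ)) X)
      intro x hx
      exact Set.mem_Icc.2 (abs_le.1 hx.1)
    rw [← Set.ncard_coe_finset]
    have hle := Set.ncard_le_ncard (s := (((Finset.Icc (-(X : ℤ)) X).filter
          (fun x => (M : ℤ) ∣ (x + 1) - (s' + 1) ∧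
            ∃ j k : ℕ, U^[j] (x + 1) = U^[k] (x₀ + 1)) : Finset ℤ) : Set ℤ)) (t := {x : ℤ | |x| ≤ (X : ℤ) ∧ (M : ℤ) ∣ x - s ∧
            ∃ j k : ℕ, T^[j] x = T^[k] x₀}) (by
      intro x hx
      rw [Finset.mem_coe, Finset.mem_filter, Finset.mem_Icc] at hx
      obtain ⟨⟨h1, h2⟩, h3, j, k, h4⟩ := hx
      refine ⟨abs_le.2 ⟨h1, h2⟩, ?_, j, k, ?_⟩
      · have h5 : (M : ℤ) ∣ ((x + 1) - (s' + 1)) + (s' - s) := dvd_add h3 hs's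
        convert h5 using 1; ring
      · rw [T_iter, T_iter, h4]) hfin
    exact_mod_cast hle
  exact ⟨⟨hfwd, fun h => by
      obtain ⟨c, hc, X0, hX0⟩ := hcount h
      have h1 := hX0 (X0 + 1) (by omega)
      have h2 : (0 : ℝ) < c * ((X0 + 1 : ℕ) : ℝ) ^ ((1 : ℝ) / 13) := by positivity
      have h3 := lt_of_lt_of_le h2 h1
      have h4 : 0 < Set.ncard {x : ℤ | |x| ≤ ((X0 + 1 : ℕ) : ℤ) ∧ (M : ℤ) ∣ x - s ∧
            ∃ j k : ℕ, T^[j] x = T^[k] x₀} := by exact_mod_cast h3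
      obtain ⟨x, hx⟩ := Set.nonempty_of_ncard_ne_zero h4.ne'
      exact ⟨x, hx.2⟩⟩, fun h => hcount (hfwd h)⟩

end Pool.Agent.Helper23.MT
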