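import Pool.Agent.Helper23.MT.Defs

set_option autoImplicit false

open scoped Classical

namespace Pool.Agent.Helper23.MT

/-- 3-adic lifting along the first c letters. Proof: induction on c, generalizing m, rho, y.
For c + 1 apply the induction hypothesis to U rho and 7 * m: this gives z1 with U^[c] z1 = y and
z1 = U rho + 3^c * (7 m) t. If rho % 3 = 0 take z = 3 * z1 (U_three_mul), then
z - rho = 3^(c+1) 7 m t. If rho % 3 = 2 then 3 z1 + 2 = 7 rho + 3^(c+1) 7 m t, take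
z = rho + 3^(c+1) m t, so 7 z = 3 z1 + 2 and U z = z1 by U_of_seven. -/
def GLIFT3 : Prop :=
  ∀ (c : ℕ) (m ρ y : ℤ), Surv c ρ → (7 ^ c * m) ∣ (y - U^[c] ρ) →
    ∃ z : ℤ, U^[c] z = y ∧ (3 ^ c * m) ∣ (z - ρ)

/-- 7-adic lifting of exponents. Proof: first, for every i there is e' not divisible by 7 with
3^(H * 7^i) = 1 + 7^(v+1+i) * e' (induction on i: expand (1 + 7^n e)^7 with n ≥ 1). Then for
K ≤ v+1 take j = 0. Induction on K ≥ v+1 with the stronger bound j ≤ 7^(K-v-1) - 1 (or j < 7^K):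
if 3^(l+jH) u = w + 7^K t then 3^(l+(j+i 7^(K-v-1))H) u = (1+7^K e')^i (w + 7^K t), which is
w + 7^K (t + i e' w) mod 7^(K+1); choose i < 7 with t + i e' w divisible by 7. -/
def GLIFT7 : Prop :=
  ∀ (v H l : ℕ) (e u w : ℤ), (3 : ℤ) ^ H = 1 + 7 ^ (v + 1) * e → ¬ (7 : ℤ) ∣ e →
    ¬ (7 : ℤ) ∣ w → (7 : ℤ) ^ (v + 1) ∣ 3 ^ l * u - w →
    ∀ K : ℕ, ∃ j ≤ 7 ^ K, (7 : ℤ) ^ K ∣ 3 ^ (l + j * H) * u - w

/-- the block move on residues mod G -/
noncomputable def mv (G : ℕ) (d : ZMod G) (l : ℕ) : ZMod G := (7 : ZMod G)⁻¹ * (3 ^ (l + 1) * d + 2)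

/-- Transitivity of the block moves on each parity class. Proof: 3 and 7 are units of ZMod G, so
each map d ↦ mv G d l is a bijection of the finite set ZMod G. Let Reach c be the set of all
ls.foldl (mv G) c. It is closed under every mv . l, hence (a bijection of a finite set which maps a
subset into itself maps it onto itself) closed under their inverses. Write M l for mv G . l.
If d is in Reach c then e := (M 1)⁻¹ (M 0 d) satisfies 3 e = d (M 1 e = (9 e + 2)/7,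
M 0 d = (3 d + 2)/7), and M 1 ((M 0)⁻¹ e) = 3 e - 4/7 = d - 4/7 is in Reach c. Iterating
7 j times: d - 4 j is in Reach c for every natural j, hence (G is positive) d + 4 j for every
integer j. If ρ ≡ c mod 4 we are done. Otherwise ρ ≡ c + 2 mod 4; let c' be an integer with
7 c' = 3 c + 2 mod G (it represents M 0 c); since 4 ∣ G, 7 c' = 3 c + 2 mod 4, so c' ≡ c + 2 ≡ ρ
mod 4 and ρ is in Reach. Uniform bound L: the goal only depends on (c mod G, ρ mod G), finitely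
many pairs; take the maximum. -/
def GTRANS : Prop :=
  ∀ G : ℕ, 0 < G → 4 ∣ G → Nat.Coprime G 3 → Nat.Coprime G 7 →
    ∃ L : ℕ, ∀ c ρ : ℤ, (2 : ℤ) ∣ c - ρ →
      ∃ ls : List ℕ, (ls.map (· + 1)).sum ≤ L ∧ ls.foldl (mv G) (c : ZMod G) = (ρ : ZMod G)

/-- Growth of the backward tree of an integer z which is not periodic and not divisible by 7.
Proof. s = 1/13, K q = (3^(6+6q)+2)/7 for q = 0..6 (reals). Let F z X be the cardinality below.
For z with 7 ∤ z there is l0 < 6 with 3^l0 z % 7 = 4, and for q ≤ 6 the integer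
z_q = (3^(l0+6q+1) z + 2)/7 satisfies 7 z_q = 3^(l0+6q+1) z + 2, so U^[l0+6q+1] z_q = z
(U_iter_block) and |z_q| ≤ K q |z| (as |z| ≥ 1). For q ≠ q' one has z_q - z_q' not divisible by 7
(7 (z_q - z_q') = 3^.. z (3^(6q) - 3^(6q')) and 3^(6(q-q')) - 1 has 7-adic valuation exactly 1 for
0 < q - q' < 7), so at most one q in 0..6 has 7 ∣ z_q. If z is not periodic then z_q is not
periodic (if U^[k] z_q = z_q, k ≥ 1, apply U^[l+1] to get U^[k] z = z), and the sets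
{z' : ∃ k, U^[k] z' = z_q} for different q are disjoint: if z' is in the sets of q < q' with
exponents k, k', then U^[k+l_q+1] z' = z = U^[k'+l_q'+1] z'; non-periodicity gives
k+l_q+1 = k'+l_q'+1 (if they differ, say by n ≥ 1, then U^[n] z = z), hence
z_q = U^[k] z' = U^[l_q' - l_q] z_q' = 3^(l_q+1) z (U^[i] z_q' = 3^(l_q'+1-i) z for
1 ≤ i ≤ l_q'+1), but z_q % 3 = 2 and 3^(l_q+1) z % 3 = 0.
Claim, by induction on n: for every non-periodic z with 7 ∤ z and every natural X ≥ |z|,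
F z X ≥ c * (min (X/|z|) (104^n))^s with c = (K 6)^(-s). If X/|z| < K 6 then F ≥ 1 (z itself).
Otherwise F z X ≥ sum over the six (or seven) good q of F z_q X
≥ c * sum (min (X/(K q |z|)) (104^n))^s, and since K q ≥ 104 for all q this is
≥ c * (min (X/|z|) (104^(n+1)))^s * sum of (K q)^(-s) (use min (r/K) (104^n) ≥ min r (104^(n+1)) / K),
and the sum over good q is at least sum for q = 1..6 of (K q)^(-s) ≥ 1 (numerically 1.0085; lower
bounds of the 13-th roots: a^13 ≤ 7/(3^(6+6q)+2) by norm_num). Let n be large for given X. -/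
def GTREE : Prop :=
  ∀ z : ℤ, ¬ (7 : ℤ) ∣ z → (∀ k : ℕ, 1 ≤ k → U^[k] z ≠ z) →
    ∃ c : ℝ, 0 < c ∧ ∀ X : ℕ, |z| ≤ X →
      c * (X : ℝ) ^ ((1 : ℝ) / 13) ≤
        (((Finset.Icc (-(X : ℤ)) X).filter
          (fun z' => ¬ (7 : ℤ) ∣ z' ∧ ∃ k : ℕ, U^[k] z' = z)).card : ℝ)

/-- the potential: D + c ≤ 5 where D is the number of letters 2 to be taken (backward) before the
inverse letter 1 is possible -/
noncomputable def pot (z : ℤ) (c : ℕ) : ℝ :=
  if z % 7 = 0 then 64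
  else if (z % 7 = 4) ∨ (z % 7 = 6 ∧ c ≤ 4) ∨ (z % 7 = 2 ∧ c ≤ 3) ∨ (z % 7 = 3 ∧ c ≤ 2) ∨
      (z % 7 = 1 ∧ c ≤ 1) ∨ (z % 7 = 5 ∧ c = 0) then 64
  else 1

/-- Kraft inequality for the backward tree. Proof: let P_k be the finite set of z with
Surv k z and U^[k] z = y; show by induction on k that the sum over z in any finite subset A of
P_k of (63/64)^ones * (1/64)^wraps * pot z (cst k z) is at most 64 (k = 0: pot ≤ 64). Step: every z in
P_(k+1) has U z in P_k, and over a given z' = U z there are at most two z: z = 3 z'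
(z % 3 = 0) and, if z' % 7 = 4, z = (3 z' + 2)/7 (z % 3 = 2). With c = cst k z' (c ≤ 5):
the inequality (if z' % 7 = 4: (63/64) * pot ((3z'+2)/7) 0) + (if c = 5 then (1/64) * pot (3z') 0 else
pot (3z') (c+1)) ≤ pot z' c holds in all cases (pot ≤ 64 always; finite check on z' % 7 and c).
Finally pot ≥ 1. -/
def GKRAFT : Prop :=
  ∀ (k : ℕ) (y : ℤ) (A : Finset ℤ), (∀ z ∈ A, Surv k z ∧ U^[k] z = y) →
    ∑ z ∈ A, ((63 : ℝ) / 64) ^ (ones k z) * ((1 : ℝ) / 64) ^ (wraps k z) ≤ 64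

/-- Counting bound. Proof: show by induction on k that for every such A and every c ≤ 5 the sum over
z ∈ A with cst k z = c of W^ones * P^wraps is at most (1/x)^k * x^c (k = 0: A has at most one
element and cst = 0). Step: A = A0 ∪ A2 (z % 3 = 0, z % 3 = 2; Surv excludes 1), U is injective on
each, and the images U(A0), U(A2) consist of z' with Surv k z' and satisfy the separation
hypothesis at level k (3 (U z - U z') = z - z' or 7 (z - z')). The class c = 0 at level k+1 gets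
W * (all of U(A2)) + P * (class 5 of U(A0)) ≤ (1/x)^k (W (1+x+...+x^5) + P x^5) ≤ (1/x)^(k+1); the
class c+1 gets class c of U(A0). Sum over c ≤ 5: at most 6 (1/x)^k as x < 1. -/
def GCOUNT : Prop :=
  ∀ (W P x : ℝ), 0 ≤ W → 0 ≤ P → 0 < x → x < 1 →
    x * W * (1 + x + x ^ 2 + x ^ 3 + x ^ 4 + x ^ 5) + P * x ^ 6 ≤ 1 →
    ∀ (k : ℕ) (A : Finset ℤ), (∀ z ∈ A, Surv k z) →
      (∀ z ∈ A, ∀ z' ∈ A, (3 : ℤ) ^ k ∣ z - z' → z = z') →
      ∑ z ∈ A, W ^ (ones k z) * P ^ (wraps k z) ≤ 6 * (1 / x) ^ k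

/-- Size bound. Induction on k: letter 1 is |U z| ≤ (7|z|+2)/3, letter 2 is |U z| = |z|/3. -/
def GSIZE : Prop :=
  ∀ (k : ℕ) (z : ℤ), Surv k z →
    (|U^[k] z| : ℝ) ≤ 7 ^ (ones k z) * ((|z| : ℝ) / 3 ^ k + 1)

/-- Numerical constants: w = 1.16762, P = 1.6818, x = 0.45966. (7^(0.629) ≤ u with
u = 3.4007 (check u^1000 ≥ 7^629) and w^8 ≥ u*64/63; P^8 ≥ 64; x^400 ≥ 3^(-283); the rational
inequality at the end is norm_num.) If one of the constants is slightly off choose nearby ones. -/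
def GNUM : Prop :=
  ∃ W P x : ℝ, 0 < W ∧ 0 < P ∧ 0 < x ∧ x < 1 ∧
    (7 : ℝ) ^ ((629 : ℝ) / 1000) * (64 / 63) ≤ W ^ 8 ∧ 64 ≤ P ^ 8 ∧
    1 / x ≤ (3 : ℝ) ^ ((629 : ℝ) / 1000 + (1 / 8) * ((628 : ℝ) / 1000)) ∧
    x * W * (1 + x + x ^ 2 + x ^ 3 + x ^ 4 + x ^ 5) + P * x ^ 6 ≤ 1

/-- The counting theorem, from GKRAFT, GCOUNT, GSIZE, GNUM. Proof: let N X be the cardinality.
θ = 629/1000, θ' = 628/1000, strong induction on X with a large C.
Given X ≥ 1 choose k with 2 X < 3^k ≤ 6 X, A = the filtered set (elements of A are separated mod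
3^k because |z - z'| ≤ 2X < 3^k). For z ∈ A let a = ones k z, Q = wraps k z,
t z = 7^(θ a) (64/63)^a 64^Q 3^(-θ' k). Then (t z)^(1/8) ≤ W^a P^Q 3^(-θ' k/8), so by GCOUNT
the number of z ∈ A with t z > 1 is at most sum of t^(1/8) ≤ 6 (1/x)^k 3^(-θ' k/8) ≤ 6 * 3^(θ k)
≤ 6 * 6^θ X^θ. The number of z with t z ≤ 1 is at most sum of 1/t = 3^(θ' k) * sum of
7^(-θ a) (63/64)^a (1/64)^Q. Group by a ≤ k: t z ≤ 1 forces 7^(θ a) ≤ 3^(θ' k), and
y = U^[k] z satisfies |y| ≤ 7^a (1/2 + 1) ≤ 2 * 7^a (GSIZE, |z|/3^k ≤ 1/2), y is again a survivor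
(of all steps), so by GKRAFT the sum over z with ones = a is ≤ 64 * N(2 * 7^a) and by the
induction hypothesis (2*7^a < X as soon as k is large, since 7^a ≤ 3^(θ' k/θ))
≤ 64 C (2*7^a)^θ. Total ≤ (k+1) * 64 * 2^θ * C * 3^(θ' k) = C * 3^(θ k) * (k+1)*64*2^θ*3^(-k/1000).
As 3^(θ k) ≤ 6^θ X^θ, for k ≥ k0 this is ≤ (C/2) X^θ. For small X (k < k0) use
N X ≤ 2 X + 1 ≤ C. -/
def GMAIN : Prop :=
  ∃ C : ℝ, 0 < C ∧ ∀ X : ℕ, 1 ≤ X →
    (((Finset.Icc (-(X : ℤ)) X).filter (fun z => ∀ k : ℕ, U^[k] z % 3 ≠ 1)).card : ℝ) ≤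
      C * (X : ℝ) ^ ((629 : ℝ) / 1000)

end Pool.Agent.Helper23.MT
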