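import Mathlib
import Pool.Agent.Helper28.MT.Goals

/-!
# Project MT: the random labeling (packet MT-LAB)
-/

set_option autoImplicit false

namespace Pool.Agent.Helper23.MT

open Finset
open Pool.Agent.Helper28.MT

/-- The labels of the reservoir of level `l` and index `g`. -/
def dlab (N s l g : ℕ) : Finset (Fin N) :=
  univ.filter (fun lam : Fin N => lam.val < s * 2 ^ s ∧ lam.val / 2 ^ s = l ∧
      (lam.val % 2 ^ s) / 2 ^ l = g)

lemma card_dlab (N s l g : ℕ) (hl : l < s) (hg : g < 2 ^ (s - l)) (hN : s * 2 ^ s ≤ N) :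
    (dlab N s l g).card = 2 ^ l := by
  have hpow : 2 ^ (s - l) * 2 ^ l = 2 ^ s := by
    rw [← pow_add]; congr 1; omega
  have hQ : 0 < 2 ^ l := by positivity
  have hP : 0 < 2 ^ s := by positivity
  have key : ∀ i < 2 ^ l, g * 2 ^ l + i < 2 ^ s := by
    intro i hi
    calc g * 2 ^ l + i < g * 2 ^ l + 2 ^ l := by omega
      _ = (g + 1) * 2 ^ l := by ring
      _ ≤ 2 ^ (s - l) * 2 ^ l := Nat.mul_le_mul_right _ hg
      _ = 2 ^ s := hpow
  have key2 : ∀ i < 2 ^ l, l * 2 ^ s + (g * 2 ^ l + i) < s * 2 ^ s := by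
    intro i hi
    calc l * 2 ^ s + (g * 2 ^ l + i) < l * 2 ^ s + 2 ^ s := by
          have := key i hi; omega
      _ = (l + 1) * 2 ^ s := by ring
      _ ≤ s * 2 ^ s := Nat.mul_le_mul_right _ hl
  rw [← card_range (2 ^ l)]
  symm
  apply card_bij (fun i hi => (⟨l * 2 ^ s + (g * 2 ^ l + i),
    lt_of_lt_of_le (key2 i (mem_range.mp hi)) hN⟩ : Fin N))
  · intro i hi
    have hi' := mem_range.mp hi
    have h1 := key i hi'
    simp only [dlab, mem_filter, mem_univ, true_and]
    refine ⟨key2 i hi', ?_, ?_⟩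
    · rw [add_comm, Nat.add_mul_div_right _ _ hP, Nat.div_eq_of_lt h1, zero_add]
    · rw [add_comm, Nat.add_mul_mod_self_right, Nat.mod_eq_of_lt h1, add_comm,
        Nat.add_mul_div_right _ _ hQ, Nat.div_eq_of_lt hi', zero_add]
  · intro a ha b hb hab
    have := congrArg Fin.val hab
    simp only at this
    omega
  · intro lam hlam
    simp only [dlab, mem_filter, mem_univ, true_and] at hlam
    obtain ⟨h1, h2, h3⟩ := hlam
    refine ⟨(lam.val % 2 ^ s) % 2 ^ l, mem_range.mpr (Nat.mod_lt _ hQ), ?_⟩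
    apply Fin.ext
    simp only
    have e1 := Nat.div_add_mod (lam.val % 2 ^ s) (2 ^ l)
    have e2 := Nat.div_add_mod lam.val (2 ^ s)
    rw [h3] at e1
    rw [h2] at e2
    rw [mul_comm g, e1, mul_comm l]
    exact e2

lemma card_low (N s : ℕ) (hN : s * 2 ^ s ≤ N) :
    (univ.filter (fun lam : Fin N => lam.val < s * 2 ^ s)).card = s * 2 ^ s := by
  have h : (range (s * 2 ^ s)).card
      = (univ.filter (fun lam : Fin N => lam.val < s * 2 ^ s)).card := by
    apply card_bij (fun i hi => (⟨i, lt_of_lt_of_le (mem_range.mp hi) hN⟩ : Fin N))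
    · intro i hi
      simp only [mem_filter, mem_univ, true_and]
      exact mem_range.mp hi
    · intro a ha b hb hab
      exact congrArg Fin.val hab
    · intro lam hlam
      simp only [mem_filter, mem_univ, true_and] at hlam
      exact ⟨lam.val, mem_range.mpr hlam, rfl⟩
  rw [← h, card_range]

/-- the number of patterns is small -/
lemma count_one (n k h s a : ℕ) (hk : 2 ≤ k) (hnk : n ≤ k) (hkh : k ≤ 2 ^ h) (hs : 1 ≤ s)
    (hsh : s ≤ h) (ha : a = n * k) :
    4 * ((s * 2 ^ s) * (a ^ n * (n + 1) ^ n)) ≤ 2 ^ (7 * h * k) := by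
  have h1 : s ≤ 2 ^ h := hsh.trans (Nat.lt_two_pow_self).le
  have h2 : 2 ^ s ≤ 2 ^ h := Nat.pow_le_pow_right (by norm_num) hsh
  have h3 : a ≤ 2 ^ (2 * h) := by
    rw [ha, two_mul, pow_add]
    exact Nat.mul_le_mul (hnk.trans hkh) hkh
  have h4 : n + 1 ≤ 2 ^ (h + 1) := by
    have : 1 ≤ 2 ^ h := Nat.one_le_two_pow
    rw [pow_succ]
    omega
  have h5 : a ^ n ≤ 2 ^ (2 * h * n) := by
    rw [pow_mul]
    exact Nat.pow_le_pow_left h3 n
  have h6 : (n + 1) ^ n ≤ 2 ^ ((h + 1) * n) := by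
    rw [pow_mul]
    exact Nat.pow_le_pow_left h4 n
  calc 4 * ((s * 2 ^ s) * (a ^ n * (n + 1) ^ n))
      ≤ 2 ^ 2 * ((2 ^ h * 2 ^ h) * (2 ^ (2 * h * n) * 2 ^ ((h + 1) * n))) := by
        gcongr
        · norm_num
    _ = 2 ^ (2 + 2 * h + (2 * h * n + (h + 1) * n)) := by
        rw [← pow_add, ← pow_add, ← pow_add, ← pow_add]
        congr 1
        ring
    _ ≤ 2 ^ (7 * h * k) := by
        apply Nat.pow_le_pow_right (by norm_num)
        have hh : 1 ≤ h := hs.trans hsh
        have e1 : h * n ≤ h * k := Nat.mul_le_mul_left _ hnk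
        have e2 : k ≤ h * k := Nat.le_mul_of_pos_left _ hh
        have e3 : h * 2 ≤ h * k := Nat.mul_le_mul_left _ hk
        have e4 : 2 * h * n = 2 * (h * n) := by ring
        have e5 : (h + 1) * n = h * n + n := by ring
        have e6 : 7 * h * k = 7 * (h * k) := by ring
        omega

/-- the second sum -/
lemma count_two (α : Type) [Fintype α] [DecidableEq α] (n k : ℕ) (hk : 2 ≤ k) (hnk : n ≤ k)
    (ha : Fintype.card α = n * k) :
    (2 : ℝ) ^ n * k * ((1 / 2 ^ (8 * k)) *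
      ((∑ E : Finset α, (1 / 2 ^ (4 * k) : ℝ) ^ E.card) *
        (∑ E : Finset α, (1 / 2 ^ (4 * k) : ℝ) ^ E.card))) ≤ 1 / 4 := by
  have hsum : (∑ E : Finset α, (1 / 2 ^ (4 * k) : ℝ) ^ E.card)
      = (1 / 2 ^ (4 * k) + 1 : ℝ) ^ (n * k) := by
    have := Fintype.sum_pow_mul_eq_add_pow α (1 / 2 ^ (4 * k) : ℝ) 1
    simp only [one_pow, mul_one] at this
    rw [this, ha]
  rw [hsum, ← pow_add]
  have hkR : (k : ℝ) ≤ 2 ^ k := by
    exact_mod_cast (Nat.lt_two_pow_self (n := k)).le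
  have h1 : (1 / 2 ^ (4 * k) + 1 : ℝ) ^ (n * k + n * k) ≤ 2 := by
    have e1 : (1 / 2 ^ (4 * k) + 1 : ℝ) ≤ Real.exp (1 / 2 ^ (4 * k)) := Real.add_one_le_exp _
    have e2 : (1 / 2 ^ (4 * k) + 1 : ℝ) ^ (n * k + n * k)
        ≤ Real.exp (1 / 2 ^ (4 * k)) ^ (n * k + n * k) :=
      pow_le_pow_left₀ (by positivity) e1 _
    rw [← Real.exp_nat_mul] at e2
    have e3 : ((n * k + n * k : ℕ) : ℝ) * (1 / 2 ^ (4 * k)) ≤ 1 / 2 := by
      have hn : (n : ℝ) ≤ 2 ^ k := le_trans (by exact_mod_cast hnk) hkR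
      have h2 : ((n * k + n * k : ℕ) : ℝ) ≤ 2 * 2 ^ (2 * k) := by
        push_cast
        have : (n : ℝ) * k ≤ 2 ^ k * 2 ^ k :=
          mul_le_mul hn hkR (by positivity) (by positivity)
        rw [two_mul k, pow_add]
        linarith
      rw [mul_one_div, div_le_div_iff₀ (by positivity) (by norm_num)]
      have h3 : (2 : ℝ) ^ (4 * k) = 2 ^ (2 * k) * 2 ^ (2 * k) := by
        rw [← pow_add]; congr 1; ring
      have h4 : (4 : ℝ) ≤ 2 ^ (2 * k) := by
        have : (2 : ℝ) ^ 2 ≤ 2 ^ (2 * k) := pow_le_pow_right₀ (by norm_num) (by omega)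
        linarith
      have h5 : (0 : ℝ) < 2 ^ (2 * k) := by positivity
      rw [h3]
      nlinarith
    have e4 : Real.exp (((n * k + n * k : ℕ) : ℝ) * (1 / 2 ^ (4 * k))) ≤ Real.exp (1 / 2) :=
      Real.exp_le_exp.mpr e3
    have e5 : Real.exp (1 / 2) ≤ 2 := by
      have e6 : Real.exp (1 / 2) * Real.exp (1 / 2) = Real.exp 1 := by
        rw [← Real.exp_add]; norm_num
      have e7 := Real.exp_one_lt_d9
      have e8 := Real.exp_pos (1 / 2 : ℝ)
      nlinarith
    linarith
  have h2 : (2 : ℝ) ^ n ≤ 2 ^ k := pow_le_pow_right₀ (by norm_num) hnk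
  have h3 : (2 : ℝ) ^ n * k ≤ 2 ^ k * 2 ^ k := mul_le_mul h2 hkR (by positivity) (by positivity)
  have h4 : (1 / 2 ^ (8 * k) : ℝ) * (1 / 2 ^ (4 * k) + 1 : ℝ) ^ (n * k + n * k)
      ≤ (1 / 2 ^ (8 * k)) * 2 := mul_le_mul_of_nonneg_left h1 (by positivity)
  calc (2 : ℝ) ^ n * k * ((1 / 2 ^ (8 * k)) * (1 / 2 ^ (4 * k) + 1 : ℝ) ^ (n * k + n * k))
      ≤ (2 ^ k * 2 ^ k) * ((1 / 2 ^ (8 * k)) * 2) :=
        mul_le_mul h3 h4 (by positivity) (by positivity)
    _ = 2 ^ (2 * k + 1) / 2 ^ (8 * k) := by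
        rw [pow_succ, two_mul k, pow_add]; ring
    _ ≤ 1 / 4 := by
        rw [div_le_div_iff₀ (by positivity) (by norm_num), one_mul]
        have : (2 : ℝ) ^ (2 * k + 1) * 4 = 2 ^ (2 * k + 3) := by
          rw [show (4 : ℝ) = 2 ^ 2 by norm_num, ← pow_add]
        rw [this]
        exact pow_le_pow_right₀ (by norm_num) (by omega)

theorem mt_lab : G_H1 → G_R1 → G_LAB := by
  intro hH hR α _ _ n k h s U X hk hnk hkh hs hsh hcard
  classical
  obtain ⟨N, hN⟩ : ∃ N : ℕ, N = 2 ^ 24 * (s * 2 ^ s) := ⟨_, rfl⟩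
  have hsP : 0 < s * 2 ^ s := by positivity
  have hNpos : 0 < N := by rw [hN]; positivity
  have hsN : s * 2 ^ s ≤ N := by
    rw [hN]; exact Nat.le_mul_of_pos_left _ (by positivity)
  have hh : 1 ≤ h := hs.trans hsh
  set a := Fintype.card α with hadef
  -- first family of bad labelings
  let B1 : (Fin s × Fin (2 ^ s)) × ((Fin n → α) × (Fin n → Fin (n + 1))) →
      Finset (α → Fin N) := fun p =>
    univ.filter (fun f => (p.1.2.val < 2 ^ (s - p.1.1.val) ∧
      2 ^ 28 * h * k * s * 2 ^ (s - p.1.1.val) ≤ (U p.2.1 p.2.2).card) ∧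
      8 * ((U p.2.1 p.2.2).filter (fun x => f x ∈ dlab N s p.1.1.val p.1.2.val)).card ≤ k)
  have hB1 : ∀ p, (B1 p).card * 2 ^ (7 * h * k) ≤ N ^ a := by
    intro p
    by_cases hp : p.1.2.val < 2 ^ (s - p.1.1.val) ∧
      2 ^ 28 * h * k * s * 2 ^ (s - p.1.1.val) ≤ (U p.2.1 p.2.2).card
    · have h1 := hH α N k h p.1.1.val (dlab N s p.1.1.val p.1.2.val) (U p.2.1 p.2.2) hh
        (card_dlab N s p.1.1.val p.1.2.val p.1.1.isLt hp.1 hsN) (by
          have e1 : 2 ^ p.1.1.val * 2 ^ (s - p.1.1.val) = 2 ^ s := by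
            rw [← pow_add]; congr 1
            have := p.1.1.isLt
            omega
          calc 16 * h * k * N = 2 ^ 28 * h * k * s * 2 ^ s := by
                rw [hN]; norm_num; ring
            _ = 2 ^ 28 * h * k * s * (2 ^ p.1.1.val * 2 ^ (s - p.1.1.val)) := by
                congr 1
                exact e1.symm
            _ = 2 ^ p.1.1.val * (2 ^ 28 * h * k * s * 2 ^ (s - p.1.1.val)) := by
                ring
            _ ≤ 2 ^ p.1.1.val * (U p.2.1 p.2.2).card := Nat.mul_le_mul_left _ hp.2)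
      refine le_trans (Nat.mul_le_mul_right _ (card_le_card ?_)) h1
      intro f hf
      simp only [B1, mem_filter, mem_univ, true_and] at hf ⊢
      exact hf.2
    · have h1 : B1 p = ∅ := by
        apply filter_eq_empty_iff.mpr
        intro f _ hf
        exact hp hf.1
      rw [h1, card_empty, zero_mul]
      exact Nat.zero_le _
  have hc1 : 4 * (univ.biUnion B1).card ≤ N ^ a := by
    have h1 : (univ.biUnion B1).card * 2 ^ (7 * h * k)
        ≤ ((s * 2 ^ s) * (a ^ n * (n + 1) ^ n)) * N ^ a := by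
      calc (univ.biUnion B1).card * 2 ^ (7 * h * k)
          ≤ (∑ p, (B1 p).card) * 2 ^ (7 * h * k) := Nat.mul_le_mul_right _ card_biUnion_le
        _ = ∑ p, (B1 p).card * 2 ^ (7 * h * k) := by rw [sum_mul]
        _ ≤ ∑ _p : (Fin s × Fin (2 ^ s)) × ((Fin n → α) × (Fin n → Fin (n + 1))), N ^ a :=
            sum_le_sum (fun p _ => hB1 p)
        _ = ((s * 2 ^ s) * (a ^ n * (n + 1) ^ n)) * N ^ a := by
            rw [sum_const, smul_eq_mul, card_univ]
            simp only [Fintype.card_prod, Fintype.card_fin, Fintype.card_fun]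
            rw [← hadef]
    have h2 := count_one n k h s a hk hnk hkh hs hsh hcard
    have h3 : 4 * (univ.biUnion B1).card * 2 ^ (7 * h * k) ≤ N ^ a * 2 ^ (7 * h * k) := by
      calc 4 * (univ.biUnion B1).card * 2 ^ (7 * h * k)
          = 4 * ((univ.biUnion B1).card * 2 ^ (7 * h * k)) := by ring
        _ ≤ 4 * (((s * 2 ^ s) * (a ^ n * (n + 1) ^ n)) * N ^ a) := Nat.mul_le_mul_left _ h1
        _ = (4 * ((s * 2 ^ s) * (a ^ n * (n + 1) ^ n))) * N ^ a := by ring
        _ ≤ 2 ^ (7 * h * k) * N ^ a := Nat.mul_le_mul_right _ h2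
        _ = N ^ a * 2 ^ (7 * h * k) := by ring
    exact Nat.le_of_mul_le_mul_right h3 (by positivity)
  -- second family
  let low : Finset (Fin N) := univ.filter (fun lam : Fin N => lam.val < s * 2 ^ s)
  have hlow : 2 ^ 24 * low.card = N := by
    rw [card_low N s hsN, hN]
  let B2 : (Finset (Fin n) × Fin k) × (Finset α × Finset α) → Finset (α → Fin N) := fun p =>
    univ.filter (fun f => (k ≤ (X p.1.1 p.1.2 p.2.1 p.2.2).card ∧
      k * (p.2.1.card + p.2.2.card) ≤ 2 * (X p.1.1 p.1.2 p.2.1 p.2.2).card) ∧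
      3 * (X p.1.1 p.1.2 p.2.1 p.2.2).card
        < 4 * ((X p.1.1 p.1.2 p.2.1 p.2.2).filter (fun x => f x ∈ low)).card)
  have hB2 : ∀ p, ((B2 p).card : ℝ) ≤ (N : ℝ) ^ a * ((1 / 2 ^ (8 * k)) *
      ((1 / 2 ^ (4 * k) : ℝ) ^ p.2.1.card * (1 / 2 ^ (4 * k) : ℝ) ^ p.2.2.card)) := by
    intro p
    by_cases hp : k ≤ (X p.1.1 p.1.2 p.2.1 p.2.2).card ∧
      k * (p.2.1.card + p.2.2.card) ≤ 2 * (X p.1.1 p.1.2 p.2.1 p.2.2).card
    · have h1 := hR α N low (X p.1.1 p.1.2 p.2.1 p.2.2) hlow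
      have h2 : (B2 p).card * 2 ^ (8 * k + 4 * k * p.2.1.card + 4 * k * p.2.2.card) ≤ N ^ a := by
        refine le_trans (Nat.mul_le_mul (card_le_card ?_)
          (Nat.pow_le_pow_right (by norm_num) ?_)) h1
        · intro f hf
          simp only [B2, mem_filter, mem_univ, true_and] at hf ⊢
          exact hf.2
        · have e1 : k * (p.2.1.card + p.2.2.card) = k * p.2.1.card + k * p.2.2.card := by ring
          have e2 : 4 * k * p.2.1.card = 4 * (k * p.2.1.card) := by ring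
          have e3 : 4 * k * p.2.2.card = 4 * (k * p.2.2.card) := by ring
          have := hp.1
          have := hp.2
          omega
      have h3 : ((B2 p).card : ℝ) * 2 ^ (8 * k + 4 * k * p.2.1.card + 4 * k * p.2.2.card)
          ≤ (N : ℝ) ^ a := by exact_mod_cast h2
      have h4 : (N : ℝ) ^ a * ((1 / 2 ^ (8 * k)) *
          ((1 / 2 ^ (4 * k) : ℝ) ^ p.2.1.card * (1 / 2 ^ (4 * k) : ℝ) ^ p.2.2.card))
          = (N : ℝ) ^ a / 2 ^ (8 * k + 4 * k * p.2.1.card + 4 * k * p.2.2.card) := by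
        rw [pow_add, pow_add, one_div_pow, one_div_pow, ← pow_mul, ← pow_mul]
        field_simp
      rw [h4, le_div_iff₀ (by positivity)]
      exact h3
    · have h1 : B2 p = ∅ := by
        apply filter_eq_empty_iff.mpr
        intro f _ hf
        exact hp hf.1
      rw [h1, card_empty, Nat.cast_zero]
      positivity
  have hc2 : 4 * (univ.biUnion B2).card ≤ N ^ a := by
    have h1 : ((univ.biUnion B2).card : ℝ) ≤ (N : ℝ) ^ a * (1 / 4) := by
      calc ((univ.biUnion B2).card : ℝ) ≤ ((∑ p, (B2 p).card : ℕ) : ℝ) := by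
            exact_mod_cast card_biUnion_le
        _ = ∑ p, ((B2 p).card : ℝ) := by push_cast; rfl
        _ ≤ ∑ p : (Finset (Fin n) × Fin k) × (Finset α × Finset α),
              (N : ℝ) ^ a * ((1 / 2 ^ (8 * k)) *
      ((1 / 2 ^ (4 * k) : ℝ) ^ p.2.1.card * (1 / 2 ^ (4 * k) : ℝ) ^ p.2.2.card)) :=
            sum_le_sum (fun p _ => hB2 p)
        _ = (N : ℝ) ^ a * ((2 : ℝ) ^ n * k * ((1 / 2 ^ (8 * k)) *
      ((∑ E : Finset α, (1 / 2 ^ (4 * k) : ℝ) ^ E.card) *
        (∑ E : Finset α, (1 / 2 ^ (4 * k) : ℝ) ^ E.card)))) := by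
            rw [← mul_sum, Fintype.sum_prod_type]
            simp only [sum_const, card_univ, nsmul_eq_mul, Fintype.card_prod,
              Fintype.card_finset, Fintype.card_fin]
            rw [← mul_sum, Fintype.sum_prod_type, sum_mul_sum]
            push_cast
            ring
        _ ≤ (N : ℝ) ^ a * (1 / 4) := by
            apply mul_le_mul_of_nonneg_left _ (by positivity)
            exact count_two α n k hk hnk hcard
    have h2 : (4 : ℝ) * (univ.biUnion B2).card ≤ (N : ℝ) ^ a := by linarith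
    exact_mod_cast h2
  -- choose
  have htot : (univ : Finset (α → Fin N)).card = N ^ a := by
    rw [card_univ, Fintype.card_fun, Fintype.card_fin]
  have hex : ∃ f : α → Fin N, f ∉ (univ.biUnion B1) ∪ (univ.biUnion B2) := by
    by_contra hcon
    simp only [not_exists, not_not] at hcon
    have h1 : (univ : Finset (α → Fin N)) ⊆ (univ.biUnion B1) ∪ (univ.biUnion B2) :=
      fun f _ => hcon f
    have h2 := card_le_card h1
    have h3 := card_union_le (univ.biUnion B1) (univ.biUnion B2)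
    have h4 : 0 < N ^ a := by positivity
    rw [htot] at h2
    omega
  obtain ⟨f, hf⟩ := hex
  rw [mem_union, not_or] at hf
  obtain ⟨hf1, hf2⟩ := hf
  refine ⟨fun x => (f x).val, ?_, ?_⟩
  · intro l hl g hg e gg hU
    by_contra hcon
    rw [not_lt] at hcon
    apply hf1
    rw [mem_biUnion]
    have hg2 : g < 2 ^ s := lt_of_lt_of_le hg (Nat.pow_le_pow_right (by norm_num) (by omega))
    refine ⟨((⟨l, hl⟩, ⟨g, hg2⟩), (e, gg)), mem_univ _, ?_⟩
    simp only [B1, mem_filter, mem_univ, true_and]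
    refine ⟨⟨hg, hU⟩, ?_⟩
    have e1 : (U e gg).filter (fun x => f x ∈ dlab N s l g)
        = res s l g (fun x => (f x).val) ∩ U e gg := by
      ext x
      simp only [dlab, res, mem_filter, mem_inter, mem_univ, true_and]
      tauto
    rw [e1]
    exact hcon
  · intro I j E Q h1 h2
    by_contra hcon
    rw [not_le] at hcon
    apply hf2
    rw [mem_biUnion]
    refine ⟨((I, j), (E, Q)), mem_univ _, ?_⟩
    simp only [B2, mem_filter, mem_univ, true_and]
    refine ⟨⟨h1, h2⟩, ?_⟩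
    have e1 : ((X I j E Q).filter (fun x => f x ∈ low)).card
        + (Pool.Agent.Helper28.MT.top s (fun x => (f x).val) ∩ X I j E Q).card
        = (X I j E Q).card := by
      have e2 : Pool.Agent.Helper28.MT.top s (fun x => (f x).val) ∩ X I j E Q
          = (X I j E Q).filter (fun x => ¬ (f x ∈ low)) := by
        ext x
        simp only [Pool.Agent.Helper28.MT.top, low, mem_filter, mem_inter, mem_univ, true_and, not_lt]
        tauto
      rw [e2]
      exact card_filter_add_card_filter_not _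
    omega

end Pool.Agent.Helper23.MT
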