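import Pool.Agent.Helper23.MT.Goals

set_option autoImplicit false

namespace Pool.Agent.Helper23.MT

theorem exists_inv_int (a N : ℤ) (h : IsCoprime a N) (b : ℤ) : ∃ x : ℤ, N ∣ a * x - b := by
  obtain ⟨u, v, huv⟩ := h
  refine ⟨u * b, ⟨-(v * b), ?_⟩⟩
  linear_combination (b : ℤ) * huv

theorem isUnit_seven {G : ℕ} (h7 : Nat.Coprime G 7) : IsUnit (7 : ZMod G) := by
  have := (ZMod.isUnit_iff_coprime 7 G).2 h7.symm
  simpa using this

theorem isUnit_three {G : ℕ} (h3 : Nat.Coprime G 3) : IsUnit (3 : ZMod G) := by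
  have := (ZMod.isUnit_iff_coprime 3 G).2 h3.symm
  simpa using this

/-- if 7 c' = 3^(l+1) c + 2 mod G then mv G c l = c' -/
theorem mv_eq {G : ℕ} (h7 : Nat.Coprime G 7) {c c' : ℤ} {l : ℕ}
    (h : (G : ℤ) ∣ 3 ^ (l + 1) * c + 2 - 7 * c') : mv G (c : ZMod G) l = (c' : ZMod G) := by
  have h1 : ((3 ^ (l + 1) * c + 2 - 7 * c' : ℤ) : ZMod G) = 0 :=
    (ZMod.intCast_zmod_eq_zero_iff_dvd _ _).2 h
  push_cast at h1
  have h2 : (3 ^ (l + 1) * (c : ZMod G) + 2) = 7 * (c' : ZMod G) := sub_eq_zero.1 h1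
  unfold mv
  rw [h2, ← mul_assoc, ZMod.inv_mul_of_unit _ (isUnit_seven h7), one_mul]

theorem mv_inj {G : ℕ} (h3 : Nat.Coprime G 3) (h7 : Nat.Coprime G 7) (l : ℕ) {a b : ZMod G}
    (h : mv G a l = mv G b l) : a = b := by
  unfold mv at h
  have h7u := isUnit_seven h7
  have h3u := (isUnit_three h3).pow (l + 1)
  have h1 : (3 ^ (l + 1) * a + 2 : ZMod G) = 3 ^ (l + 1) * b + 2 := by
    have := congrArg (fun t => (7 : ZMod G) * t) h
    simpa only [← mul_assoc, ZMod.mul_inv_of_unit _ h7u, one_mul] using this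
  exact h3u.mul_left_cancel (add_right_cancel h1)

theorem foldl_mv_inj {G : ℕ} (h3 : Nat.Coprime G 3) (h7 : Nat.Coprime G 7) (ls : List ℕ) :
    ∀ {a b : ZMod G}, ls.foldl (mv G) a = ls.foldl (mv G) b → a = b := by
  induction ls with
  | nil => intro a b h; simpa using h
  | cons l ls ih =>
    intro a b h
    rw [List.foldl_cons, List.foldl_cons] at h
    exact mv_inj h3 h7 l (ih h)

/-- an integer representative of a move with the right parity -/
theorem foldl_mv_int {G : ℕ} (h2 : 2 ∣ G) (h7 : Nat.Coprime G 7) (ls : List ℕ) :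
    ∀ c : ℤ, ∃ c' : ℤ, ls.foldl (mv G) (c : ZMod G) = (c' : ZMod G) ∧ (2 : ℤ) ∣ c' - c := by
  induction ls with
  | nil => intro c; exact ⟨c, rfl, by simp⟩
  | cons l ls ih =>
    intro c
    have hco : IsCoprime (7 : ℤ) (G : ℤ) := by
      have := Nat.isCoprime_iff_coprime.2 h7
      exact_mod_cast this.symm
    obtain ⟨c1, hc1⟩ := exists_inv_int 7 G hco (3 ^ (l + 1) * c + 2)
    have h1 : (G : ℤ) ∣ 3 ^ (l + 1) * c + 2 - 7 * c1 := by
      have := (dvd_neg (a := (G : ℤ))).2 hc1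
      rwa [neg_sub] at this
    obtain ⟨c', hc', hp⟩ := ih c1
    refine ⟨c', ?_, ?_⟩
    · rw [List.foldl_cons, mv_eq h7 h1, hc']
    · have h2' : (2 : ℤ) ∣ 3 ^ (l + 1) * c + 2 - 7 * c1 := by
        refine dvd_trans ?_ h1
        exact_mod_cast h2
      have hodd : (2 : ℤ) ∣ 3 ^ (l + 1) - 1 := by
        have := sub_dvd_pow_sub_pow (3 : ℤ) 1 (l + 1)
        rw [one_pow] at this
        exact dvd_trans (by norm_num) this
      obtain ⟨e, he⟩ := hodd
      have h3e : (3 : ℤ) ^ (l + 1) = 1 + 2 * e := by linarith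
      rw [h3e] at h2'
      have : (2 : ℤ) ∣ c1 - c := by
        have e1 : (1 + 2 * e) * c + 2 - 7 * c1 = c - c1 + 2 * (e * c + 1 - 3 * c1) := by ring
        rw [e1] at h2'
        omega
      omega

/-- existence of the class from which the block moves ls lead to a given target -/
theorem chain (ls : List ℕ) (m : ℕ) (h3 : Nat.Coprime m 3) (ρ : ℤ) :
    ∃ ζ : ℤ,
      (∀ y : ℤ, ((7 : ℤ) ^ ls.length * m) ∣ y - ζ →
        ∃ y' : ℤ, U^[(ls.map (· + 1)).sum] y' = y ∧ (m : ℤ) ∣ y' - ρ) ∧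
      (∀ G : ℕ, G ∣ m → Nat.Coprime G 7 → ls.foldl (mv G) (ζ : ZMod G) = (ρ : ZMod G)) ∧
      (∀ (v : ℕ) (ls1 : List ℕ), ls = List.replicate v 0 ++ ls1 → (7 : ℤ) ^ v ∣ 2 * ζ - 1) := by
  induction ls with
  | nil =>
    refine ⟨ρ, ?_, ?_, ?_⟩
    · intro y hy
      exact ⟨y, by simp, by simpa using hy⟩
    · intro G _ _; rfl
    · intro v ls1 h
      have h0 : v = 0 := by
        have := congrArg List.length h
        simp at this
        omega
      subst h0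
      simp
  | cons l ls ih =>
    obtain ⟨ζ', h1, h2, h4⟩ := ih
    have hco : IsCoprime ((3 : ℤ) ^ (l + 1)) ((7 : ℤ) ^ (ls.length + 1) * m) := by
      refine IsCoprime.pow_left ?_
      refine IsCoprime.mul_right ?_ ?_
      · refine IsCoprime.pow_right ?_
        rw [Int.isCoprime_iff_gcd_eq_one]; norm_num
      · have := Nat.isCoprime_iff_coprime.2 h3
        exact_mod_cast this.symm
    obtain ⟨ζ, hζ⟩ := exists_inv_int _ _ hco (7 * ζ' - 2)
    refine ⟨ζ, ?_, ?_, ?_⟩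
    · intro y hy
      rw [List.length_cons] at hy
      have h5 : ((7 : ℤ) ^ (ls.length + 1) * m) ∣ 3 ^ (l + 1) * y + 2 - 7 * ζ' := by
        have e1 : (3 : ℤ) ^ (l + 1) * y + 2 - 7 * ζ'
            = 3 ^ (l + 1) * (y - ζ) + (3 ^ (l + 1) * ζ - (7 * ζ' - 2)) := by ring
        rw [e1]
        exact dvd_add (Dvd.dvd.mul_left hy _) hζ
      obtain ⟨t, ht⟩ := h5
      -- y1 = ζ' + 7^len * m * t
      obtain ⟨y', hy', hρ'⟩ := h1 (ζ' + 7 ^ ls.length * m * t) ⟨t, by ring⟩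
      refine ⟨y', ?_, hρ'⟩
      rw [List.map_cons, List.sum_cons, Function.iterate_add_apply, hy']
      apply U_iter_block
      have : (3 : ℤ) ^ (l + 1) * y + 2 = 7 * ζ' + 7 ^ (ls.length + 1) * m * t := by linarith
      rw [this]; ring
    · intro G hG h7
      rw [List.foldl_cons]
      have hdv : (G : ℤ) ∣ 3 ^ (l + 1) * ζ + 2 - 7 * ζ' := by
        have e1 : (3 : ℤ) ^ (l + 1) * ζ + 2 - 7 * ζ' = 3 ^ (l + 1) * ζ - (7 * ζ' - 2) := by ring
        rw [e1]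
        refine dvd_trans ?_ hζ
        exact Dvd.dvd.mul_left (by exact_mod_cast hG) _
      rw [mv_eq h7 hdv]
      exact h2 G hG h7
    · intro v ls1 h
      rcases v with _ | v
      · simp
      · rw [List.replicate_succ, List.cons_append] at h
        injection h with hl hls
        have h6 := h4 v ls1 hls
        have hvle : v ≤ ls.length := by
          rw [hls]; simp
        subst hl
        have h7 : (7 : ℤ) ^ (v + 1) ∣ 3 ^ (0 + 1) * ζ - (7 * ζ' - 2) := by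
          refine dvd_trans (Dvd.dvd.mul_right ?_ _) hζ
          exact pow_dvd_pow _ (by omega)
        have h8 : (7 : ℤ) ^ (v + 1) ∣ 7 * (2 * ζ' - 1) := by
          rw [pow_succ, mul_comm]
          exact mul_dvd_mul_left 7 h6
        have h9 : (7 : ℤ) ^ (v + 1) ∣ 3 * (2 * ζ - 1) := by
          have e1 : 3 * (2 * ζ - 1) = 2 * (3 ^ (0 + 1) * ζ - (7 * ζ' - 2)) + 7 * (2 * ζ' - 1) := by
            ring
          rw [e1]
          exact dvd_add (Dvd.dvd.mul_left h7 _) h8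
        have hc : IsCoprime ((7 : ℤ) ^ (v + 1)) 3 := by
          refine IsCoprime.pow_left ?_
          rw [Int.isCoprime_iff_gcd_eq_one]; norm_num
        exact hc.dvd_of_dvd_mul_left h9

theorem steer (hL7 : GLIFT7) (hT : GTRANS) (F G : ℕ) (hG : 0 < G) (h4 : 4 ∣ G)
    (h3 : Nat.Coprime G 3) (h7 : Nat.Coprime G 7) (ρ : ℤ) :
    ∃ K' : ℕ, ∀ z : ℤ, ¬ (7 : ℤ) ∣ z → (2 : ℤ) ∣ z - ρ →
      ∃ j ≤ K', ∃ z'' : ℤ, U^[j] z'' = z ∧ ((7 : ℤ) ^ F * G) ∣ z'' - ρ := by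
  obtain ⟨L, hL⟩ := hT G hG h4 h3 h7
  -- the exponent H
  set φ := Nat.totient G with hφ
  have hφpos : 0 < φ := Nat.totient_pos.2 hG
  set H := 6 * φ with hH
  have hmodG : (G : ℤ) ∣ 3 ^ H - 1 := by
    have h := Nat.ModEq.pow_totient (Nat.Coprime.symm h3)
    have h' : (3 : ℤ) ^ φ ≡ 1 [ZMOD G] := by exact_mod_cast (Int.natCast_modEq_iff.2 h)
    have h'' : (3 : ℤ) ^ H ≡ 1 [ZMOD G] := by
      rw [hH, mul_comm, pow_mul]
      have := h'.pow 6
      rwa [one_pow] at this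
    exact (h''.symm).dvd
  have hmod7 : (7 : ℤ) ∣ 3 ^ H - 1 := by
    rw [hH, pow_mul]
    have := sub_dvd_pow_sub_pow ((3 : ℤ) ^ 6) 1 φ
    rw [one_pow] at this
    exact dvd_trans (by norm_num) this
  have hne : (3 ^ H - 1 : ℤ) ≠ 0 := by
    have : (1 : ℤ) < 3 ^ H := one_lt_pow₀ (by norm_num) (by omega)
    omega
  obtain ⟨e0, n', hn', hfac⟩ : ∃ (e0 : ℕ) (n' : ℤ), ¬ (7 : ℤ) ∣ n' ∧ (3 ^ H - 1 : ℤ) = 7 ^ e0 * n' := by
    have hfin : FiniteMultiplicity (7 : ℤ) (3 ^ H - 1) :=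
      Int.finiteMultiplicity_iff.2 ⟨by norm_num, hne⟩
    obtain ⟨c, hc, hc'⟩ := hfin.exists_eq_pow_mul_and_not_dvd
    exact ⟨_, c, hc', hc⟩
  have he0 : 1 ≤ e0 := by
    by_contra hcon
    have : e0 = 0 := by omega
    rw [this, pow_zero, one_mul] at hfac
    exact hn' (hfac ▸ hmod7)
  obtain ⟨v, rfl⟩ : ∃ v, e0 = v + 1 := ⟨e0 - 1, by omega⟩
  have hHeq : (3 : ℤ) ^ H = 1 + 7 ^ (v + 1) * n' := by linarith
  set K := v + L + F + 1 with hK
  refine ⟨5 + 6 * 7 ^ (v + 1) + 1 + 7 ^ K * H + (v + L), ?_⟩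
  intro z hz hpar
  -- base exponent
  obtain ⟨l, hl5, hl⟩ : ∃ l : ℕ, l ≤ 5 ∧ (7 : ℤ) ^ (0 + 1) ∣ 3 ^ l * (2 * z) - 1 := by
    have hcases : z % 7 = 1 ∨ z % 7 = 2 ∨ z % 7 = 3 ∨ z % 7 = 4 ∨ z % 7 = 5 ∨ z % 7 = 6 := by omega
    rcases hcases with h | h | h | h | h | h
    · exact ⟨4, by norm_num, by norm_num; omega⟩
    · exact ⟨2, by norm_num, by norm_num; omega⟩
    · exact ⟨3, by norm_num, by norm_num; omega⟩
    · exact ⟨0, by norm_num, by norm_num; omega⟩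
    · exact ⟨5, by norm_num, by norm_num; omega⟩
    · exact ⟨1, by norm_num, by norm_num; omega⟩
  obtain ⟨j0, hj0, hj0'⟩ := hL7 0 6 l 104 (2 * z) 1 (by norm_num) (by norm_num) (by norm_num) hl (v + 1)
  set lam := l + j0 * 6 with hlam
  have hlam_le : lam ≤ 5 + 6 * 7 ^ (v + 1) := by rw [hlam]; nlinarith
  -- class mod G after steering
  have hco7 : IsCoprime (7 : ℤ) (G : ℤ) := by
    have := Nat.isCoprime_iff_coprime.2 h7
    exact_mod_cast this.symm
  obtain ⟨cs, hcs⟩ := exists_inv_int 7 G hco7 (3 ^ (lam + 1) * z + 2)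
  have h2G : (2 : ℤ) ∣ (G : ℤ) := by
    have : (2 : ℕ) ∣ G := dvd_trans (by norm_num) h4
    exact_mod_cast this
  have hcspar : (2 : ℤ) ∣ cs - z := by
    have h2' := dvd_trans h2G hcs
    have hodd : (2 : ℤ) ∣ 3 ^ (lam + 1) - 1 := by
      have := sub_dvd_pow_sub_pow (3 : ℤ) 1 (lam + 1)
      rw [one_pow] at this
      exact dvd_trans (by norm_num) this
    obtain ⟨e, he⟩ := hodd
    have h3e : (3 : ℤ) ^ (lam + 1) = 1 + 2 * e := by linarith
    rw [h3e] at h2'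
    have e1 : 7 * cs - ((1 + 2 * e) * z + 2) = cs - z + 2 * (3 * cs - e * z - 1) := by ring
    rw [e1] at h2'
    omega
  obtain ⟨c1, hc1, hc1par⟩ := foldl_mv_int (G := G) (by
    have : (2 : ℕ) ∣ G := dvd_trans (by norm_num) h4
    exact this) h7 (List.replicate v 0) cs
  obtain ⟨ls1, hls1, hfold1⟩ := hL c1 ρ (by omega)
  set ls := List.replicate v 0 ++ ls1 with hls
  have hm3 : Nat.Coprime (7 ^ F * G) 3 := by
    refine Nat.Coprime.mul_left ?_ h3
    exact Nat.Coprime.pow_left _ (by norm_num)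
  obtain ⟨ζ, hζ1, hζ2, hζ3⟩ := chain ls (7 ^ F * G) hm3 ρ
  have hfoldζ := hζ2 G (Dvd.intro_left _ rfl) h7
  have hfoldcs : ls.foldl (mv G) (cs : ZMod G) = (ρ : ZMod G) := by
    rw [hls, List.foldl_append, hc1, hfold1]
  have hζcs : (ζ : ZMod G) = (cs : ZMod G) := foldl_mv_inj h3 h7 ls (by rw [hfoldζ, hfoldcs])
  have hζcs' : (G : ℤ) ∣ ζ - cs := by
    have := (ZMod.intCast_eq_intCast_iff_dvd_sub cs ζ G).1 hζcs.symm
    exact this
  have hζv : (7 : ℤ) ^ v ∣ 2 * ζ - 1 := hζ3 v ls1 hls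
  -- the lift
  have hstart : (7 : ℤ) ^ (v + 1) ∣ 3 ^ (lam + 1) * z - (7 * ζ - 2) := by
    have h8 : (7 : ℤ) ^ (v + 1) ∣ 7 * (2 * ζ - 1) := by
      rw [pow_succ, mul_comm]
      exact mul_dvd_mul_left 7 hζv
    have h9 : (7 : ℤ) ^ (v + 1) ∣ 2 * (3 ^ (lam + 1) * z - (7 * ζ - 2)) := by
      have e1 : 2 * (3 ^ (lam + 1) * z - (7 * ζ - 2))
          = 3 * (3 ^ lam * (2 * z) - 1) - 7 * (2 * ζ - 1) := by ring
      rw [e1]
      exact dvd_sub (Dvd.dvd.mul_left hj0' _) h8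
    have hc : IsCoprime ((7 : ℤ) ^ (v + 1)) 2 := by
      refine IsCoprime.pow_left ?_
      rw [Int.isCoprime_iff_gcd_eq_one]; norm_num
    exact hc.dvd_of_dvd_mul_left h9
  have hw : ¬ (7 : ℤ) ∣ 7 * ζ - 2 := by omega
  have hlen : ls.length ≤ v + L := by
    have h1 : ls1.length ≤ (ls1.map (· + 1)).sum := by
      clear * -
      induction ls1 with
      | nil => simp
      | cons a t ih => simp only [List.length_cons, List.map_cons, List.sum_cons]; omega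
    rw [hls, List.length_append, List.length_replicate]
    omega
  obtain ⟨j, hj, hj'⟩ := hL7 v H (lam + 1) n' z (7 * ζ - 2) hHeq hn' hw hstart (ls.length + F + 1)
  have hjK : j ≤ 7 ^ K := le_trans hj (Nat.pow_le_pow_right (by norm_num) (by omega))
  -- mod G
  have hGj : (G : ℤ) ∣ 3 ^ (lam + 1 + j * H) * z - (7 * ζ - 2) := by
    have h1 : (G : ℤ) ∣ 3 ^ (j * H) - 1 := by
      rw [mul_comm, pow_mul]
      have := sub_dvd_pow_sub_pow ((3 : ℤ) ^ H) 1 j
      rw [one_pow] at this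
      exact dvd_trans hmodG this
    have e1 : (3 : ℤ) ^ (lam + 1 + j * H) * z - (7 * ζ - 2)
        = 3 ^ (lam + 1) * z * (3 ^ (j * H) - 1) - (7 * cs - (3 ^ (lam + 1) * z + 2))
          - 7 * (ζ - cs) := by
      rw [pow_add]; ring
    rw [e1]
    exact dvd_sub (dvd_sub (Dvd.dvd.mul_left h1 _) hcs) (Dvd.dvd.mul_left hζcs' _)
  have hcoG : IsCoprime ((7 : ℤ) ^ (ls.length + F + 1)) (G : ℤ) := IsCoprime.pow_left hco7
  obtain ⟨t, ht⟩ := hcoG.mul_dvd hj' hGj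
  -- the steered point
  obtain ⟨y', hy', hρ'⟩ := hζ1 (ζ + 7 ^ (ls.length + F) * G * t) ⟨t, by push_cast; ring⟩
  have hstep : U^[(lam + j * H) + 1] (ζ + 7 ^ (ls.length + F) * G * t) = z := by
    apply U_iter_block
    have e2 : (3 : ℤ) ^ (lam + j * H + 1) = 3 ^ (lam + 1 + j * H) := by congr 1; ring
    rw [e2]
    have e3 : (3 : ℤ) ^ (lam + 1 + j * H) * z = 7 * ζ - 2 + 7 ^ (ls.length + F + 1) * G * t := by
      linarith
    rw [e3]; ring
  refine ⟨(lam + j * H) + 1 + (ls.map (· + 1)).sum, ?_, y', ?_, ?_⟩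
  · have hsum : (ls.map (· + 1)).sum ≤ v + L := by
      rw [hls, List.map_append, List.sum_append, List.map_replicate, List.sum_replicate]
      simp only [zero_add, smul_eq_mul, mul_one]
      omega
    have : j * H ≤ 7 ^ K * H := Nat.mul_le_mul_right _ hjK
    omega
  · rw [Function.iterate_add_apply, hy', hstep]
  · have := hρ'
    push_cast at this
    exact this

end Pool.Agent.Helper23.MT
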